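import Pool.Agent.H373R2.T7.BilF
import Pool.Agent.H373R2.T7.SupE2

/-!
# Almost all additive shifts of a sequence (helper49)

`Λ` minus its sieve model along `u 1, …, u N` shifted by `b`, for all but few `b`, with arbitrary weights; `u` is an
arbitrary increasing sequence with `u j ≤ j (log j)^C`.
-/

set_option autoImplicit false

namespace Pool.Agent.V7H49.SH

open Finset
open Pool.Agent.H373R2.T7 Pool.Agent.H807R2.Dav

/-- von Mangoldt on the integers -/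
noncomputable def LI (k : ℤ) : ℝ := if 1 ≤ k then ArithmeticFunction.vonMangoldt k.toNat else 0

/-- the sieve model on the integers -/
noncomputable def LZ (z : ℕ) (k : ℤ) : ℝ := if 1 ≤ k then lamz z k.toNat else 0

lemma LI_nonneg (k : ℤ) : 0 ≤ LI k := by
  unfold LI
  split_ifs
  · exact ArithmeticFunction.vonMangoldt_nonneg
  · exact le_rfl

lemma LZ_nonneg (z : ℕ) (k : ℤ) : 0 ≤ LZ z k := by
  unfold LZ
  split_ifs
  · exact lamz_nonneg _ _
  · exact le_rfl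

/-- an increasing sequence of positive integers with `u j ≤ j (log j)^C` for large `j` -/
def Slow (u : ℕ → ℕ) : Prop := (∀ m n, 1 ≤ m → m < n → u m < u n) ∧ 1 ≤ u 1 ∧
  ∃ C n0 : ℕ, ∀ n, n0 ≤ n → (u n : ℝ) ≤ n * (Real.log n) ^ C

/-- second moment of the exponential sum of a sequence with distinct values -/
lemma mom2 (x M : ℕ) (hM : 1 ≤ M) (hx : 1 ≤ x) (F : ℕ → ℤ)
    (hinj : ∀ m ∈ Icc 1 x, ∀ m' ∈ Icc 1 x, (M : ℤ) ∣ F m - F m' → m = m') :
    ∑ t ∈ range M, (‖∑ m ∈ Icc 1 x, ee ((t : ℝ) * ((F m : ℝ) / M))‖ / x) ^ (2 * 1) ≤ (M : ℝ) / x := by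
  have hx0 : (0 : ℝ) < x := by exact_mod_cast hx
  have h1 : (((∑ t ∈ range M, ‖∑ i ∈ Icc 1 x, (1 : ℂ) * ee ((t : ℝ) * ((F i : ℝ) / M))‖ ^ 2 : ℝ)) : ℂ) =
      ∑ i ∈ Icc 1 x, ∑ j ∈ Icc 1 x, (1 : ℂ) * (starRingEnd ℂ) (1 : ℂ) *
        (if (M : ℤ) ∣ F i - F j then (M : ℂ) else 0) := sq_expand (Icc 1 x) (fun _ => (1 : ℂ)) F M hM
  have h2 : ∑ i ∈ Icc 1 x, ∑ j ∈ Icc 1 x, (1 : ℂ) * (starRingEnd ℂ) (1 : ℂ) *
      (if (M : ℤ) ∣ F i - F j then (M : ℂ) else 0) = (((M : ℝ) * x : ℝ) : ℂ) := by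
    have h3 : ∀ i ∈ Icc 1 x, ∑ j ∈ Icc 1 x, (1 : ℂ) * (starRingEnd ℂ) (1 : ℂ) *
        (if (M : ℤ) ∣ F i - F j then (M : ℂ) else 0) = (M : ℂ) := by
      intro i hi
      rw [sum_eq_single i]
      · simp
      · intro j hj hne
        rw [if_neg (fun hd => hne (hinj i hi j hj hd).symm), mul_zero]
      · intro h
        exact absurd hi h
    rw [sum_congr rfl h3, sum_const, Nat.card_Icc, nsmul_eq_mul, Nat.add_sub_cancel]
    push_cast
    ring
  rw [h2] at h1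
  simp only [one_mul] at h1
  have h4 : ∑ t ∈ range M, ‖∑ m ∈ Icc 1 x, ee ((t : ℝ) * ((F m : ℝ) / M))‖ ^ 2 = (M : ℝ) * x := by
    exact_mod_cast h1
  have h5 : ∑ t ∈ range M, (‖∑ m ∈ Icc 1 x, ee ((t : ℝ) * ((F m : ℝ) / M))‖ / x) ^ (2 * 1) =
      (∑ t ∈ range M, ‖∑ m ∈ Icc 1 x, ee ((t : ℝ) * ((F m : ℝ) / M))‖ ^ 2) / (x : ℝ) ^ 2 := by
    rw [sum_div]
    apply sum_congr rfl
    intro t _
    rw [mul_one, div_pow]
  rw [h5, h4]
  apply le_of_eq
  field_simp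

lemma slow_mono {u : ℕ → ℕ} (hu : Slow u) {m n : ℕ} (hm : 1 ≤ m) (hmn : m ≤ n) : u m ≤ u n := by
  rcases hmn.eq_or_lt with h | h
  · rw [h]
  · exact (hu.1 m n hm h).le

lemma slow_pos {u : ℕ → ℕ} (hu : Slow u) {m : ℕ} (hm : 1 ≤ m) : 1 ≤ u m := hu.2.1.trans (slow_mono hu le_rfl hm)

lemma slow_inj {u : ℕ → ℕ} (hu : Slow u) {m n : ℕ} (hm : 1 ≤ m) (hn : 1 ≤ n) (h : u m = u n) : m = n := by
  rcases lt_trichotomy m n with h1 | h1 | h1
  · exact absurd h (hu.1 m n hm h1).ne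
  · exact h1
  · exact absurd h (hu.1 n m hn h1).ne'

lemma ev_pow (K : ℕ) : ∃ x0 : ℕ, ∀ x : ℕ, x0 ≤ x → Real.log x ^ K ≤ x := by
  have h1 := (Real.isLittleO_pow_log_id_atTop (n := K)).comp_tendsto (tendsto_natCast_atTop_atTop (R := ℝ))
  have h2 := h1.bound (show (0 : ℝ) < 1 by norm_num)
  have h3 : ∀ᶠ x : ℕ in Filter.atTop, Real.log x ^ K ≤ x := by
    filter_upwards [h2] with n hn
    have h4 : ‖Real.log n ^ K‖ ≤ 1 * ‖(n : ℝ)‖ := hn
    rw [one_mul, Real.norm_of_nonneg (Nat.cast_nonneg n)] at h4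
    exact (le_abs_self _).trans h4
  exact Filter.eventually_atTop.1 h3

set_option maxHeartbeats 1000000 in
/-- **One shift.** -/
theorem one (u : ℕ → ℕ) (hu : Slow u) (U : ℕ) :
    ∃ B : ℕ, ∀ E : ℕ, ∃ N0 : ℕ, ∀ N : ℕ, N0 ≤ N → ∀ z : ℕ, Real.log N ^ B ≤ z → (z : ℝ) ≤ Real.log N ^ E →
    ∀ c : ℕ → ℂ, (∀ m, ‖c m‖ ≤ 1) →
    ∑ b ∈ Icc (-(N : ℤ)) N, ‖∑ m ∈ Icc 1 N, c m * ((LI (u m + b) - LZ z (u m + b) : ℝ) : ℂ)‖ ≤
      (N : ℝ) ^ 2 / Real.log N ^ U := by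
  obtain ⟨C, n0, hC⟩ := hu.2.2
  set V : ℕ := U + C + 4 with hV
  set U' : ℕ := 2 * V + C + U + 2 with hU'
  obtain ⟨B1, hsup⟩ := sup_diff U'
  refine ⟨B1 + 1, fun E => ?_⟩
  obtain ⟨m1, h1⟩ := hsup E
  obtain ⟨m2, h2⟩ := Vz_inv_small E
  obtain ⟨m3, h3⟩ := ev_L' (max (2 ^ B1) 8)
  obtain ⟨m4, h4⟩ := ev_pow (C + 1)
  refine ⟨max (max (max m1 m2) (max m3 3)) (max n0 m4), fun N hN z hz1 hz2 c hc => ?_⟩
  have hm1 : m1 ≤ N := le_trans (le_trans (le_trans (le_max_left _ _) (le_max_left _ _)) (le_max_left _ _)) hN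
  have hm2 : m2 ≤ N := le_trans (le_trans (le_trans (le_max_right _ _) (le_max_left _ _)) (le_max_left _ _)) hN
  have hL := h3 N (le_trans (le_trans (le_trans (le_max_left _ _) (le_max_right _ _)) (le_max_left _ _)) hN)
  have hN3 : 3 ≤ N := le_trans (le_trans (le_trans (le_max_right _ _) (le_max_right _ _)) (le_max_left _ _)) hN
  have hn0 : n0 ≤ N := le_trans (le_trans (le_max_left _ _) (le_max_right _ _)) hN
  have hpw := h4 N (le_trans (le_trans (le_max_right _ _) (le_max_right _ _)) hN)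
  have hNr : (3 : ℝ) ≤ N := by exact_mod_cast hN3
  have hN0 : (0 : ℝ) < N := by linarith
  set L := Real.log N with hLd
  have hL3 : (2 : ℝ) ^ B1 ≤ L := (le_max_left _ _).trans hL
  have hL8 : (8 : ℝ) ≤ L := (le_max_right _ _).trans hL
  have hL0 : 0 < L := by linarith
  have hL1 : 1 ≤ L := by linarith
  have hz : 1 ≤ z := by
    have : (1 : ℝ) ≤ z := (one_le_pow₀ hL1).trans hz1
    exact_mod_cast this
  set h : ℕ := ⌈L ^ C⌉₊ + 1 with hh
  have hLC : (1 : ℝ) ≤ L ^ C := one_le_pow₀ hL1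
  have hh1 : L ^ C + 1 ≤ h := by rw [hh]; push_cast; linarith [Nat.le_ceil (L ^ C)]
  have hh2 : (h : ℝ) ≤ L ^ (C + 1) := by
    have := (Nat.ceil_lt_add_one (by positivity : (0 : ℝ) ≤ L ^ C)).le
    rw [hh, pow_succ]
    push_cast
    nlinarith
  have hh3 : 2 ≤ h := by
    have : (2 : ℝ) ≤ h := by linarith
    exact_mod_cast this
  set H : ℕ := h * N with hH
  have hH2 : 2 * N ≤ H := Nat.mul_le_mul_right _ hh3
  have hHN : N ≤ H := by omega
  have hH1 : 1 ≤ H := by omega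
  have hHr : (H : ℝ) = h * N := by rw [hH]; push_cast; ring
  have hHr0 : (0 : ℝ) < H := by exact_mod_cast hH1
  have hHle : (H : ℝ) ≤ L ^ (C + 1) * N := by rw [hHr]; exact mul_le_mul_of_nonneg_right hh2 hN0.le
  have hlogH1 : L ≤ Real.log H := Real.log_le_log hN0 (by exact_mod_cast hHN)
  have hlogH2 : Real.log H ≤ 2 * L := by
    have h5 : (H : ℝ) ≤ N ^ 2 := by
      rw [pow_two]; exact hHle.trans (mul_le_mul_of_nonneg_right hpw hN0.le)
    have h6 := Real.log_le_log hHr0 h5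
    rw [Real.log_pow] at h6
    exact_mod_cast h6
  have hum : ∀ m ∈ Icc 1 N, ((u m : ℕ) : ℤ) + N ≤ H := by
    intro m hm
    rw [mem_Icc] at hm
    have h5 : (u m : ℝ) ≤ N * L ^ C := by
      refine le_trans ?_ (hC N hn0)
      exact_mod_cast slow_mono hu hm.1 hm.2
    have h6 : ((u m + N : ℕ) : ℝ) ≤ (H : ℝ) := by
      rw [hHr]; push_cast
      nlinarith
    have h7 : u m + N ≤ H := by exact_mod_cast h6
    exact_mod_cast h7
  set M : ℕ := 4 * H with hM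
  have hM1 : 1 ≤ M := by omega
  set F : ℕ → ℤ := fun m => (u m : ℤ) - (N + 1) with hF
  have hcond : ∀ a ∈ Icc 1 (2 * N + 1), ∀ m ∈ Icc 1 N, ∀ n ∈ Icc 1 H, |(a : ℤ) + F m - n| < M := by
    intro a ha m hm n hn
    have h5 := hum m hm
    rw [mem_Icc] at ha hn
    have h6 : (0 : ℤ) ≤ (u m : ℤ) := Int.natCast_nonneg _
    rw [abs_lt, hF, hM]
    simp only
    push_cast
    constructor <;> omega
  have hinj : ∀ m ∈ Icc 1 N, ∀ m' ∈ Icc 1 N, (M : ℤ) ∣ F m - F m' → m = m' := by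
    intro m hm m' hm' hd
    have h5 := hum m hm
    have h6 := hum m' hm'
    have h7 : (0 : ℤ) ≤ (u m : ℤ) := Int.natCast_nonneg _
    have h8 : (0 : ℤ) ≤ (u m' : ℤ) := Int.natCast_nonneg _
    have h9 : F m - F m' = 0 := by
      apply Int.eq_zero_of_abs_lt_dvd hd
      rw [abs_lt, hF, hM]
      simp only
      push_cast
      constructor <;> omega
    rw [mem_Icc] at hm hm'
    apply slow_inj hu hm.1 hm'.1
    rw [hF] at h9
    simp only at h9
    omega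
  have hmom := mom2 N M hM1 (by omega) F hinj
  -- the function
  set fΛ : ℕ → ℂ := fun n => ((ArithmeticFunction.vonMangoldt n - lamz z n : ℝ) : ℂ) with hfΛ
  have hzH1 : Real.log H ^ B1 ≤ z := by
    calc Real.log H ^ B1 ≤ (2 * L) ^ B1 := pow_le_pow_left₀ (hL0.le.trans hlogH1) hlogH2 _
      _ = 2 ^ B1 * L ^ B1 := mul_pow _ _ _
      _ ≤ L * L ^ B1 := mul_le_mul_of_nonneg_right hL3 (by positivity)
      _ = L ^ (B1 + 1) := by ring
      _ ≤ z := hz1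
  have hzH2 : (z : ℝ) ≤ Real.log H ^ E := hz2.trans (pow_le_pow_left₀ hL0.le hlogH1 _)
  have hsup1 : ∀ α : ℝ, ‖∑ n ∈ Icc 1 H, fΛ n * ee ((n : ℝ) * α)‖ ≤ H / L ^ U' := by
    intro α
    refine (h1 H (hm1.trans hHN) z hzH1 hzH2 α).trans ?_
    apply div_le_div_of_nonneg_left (by positivity) (by positivity)
    exact pow_le_pow_left₀ hL0.le hlogH1 _
  have hVinv := h2 N hm2 z hz hz2
  have hlz : ∀ n, lamz z n ≤ L := by
    intro n
    unfold lamz
    split_ifs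
    · exact hVinv
    · exact hL0.le
  have hfs : ∑ n ∈ Icc 1 H, ‖fΛ n‖ ^ 2 ≤ H * (2 * L) ^ 2 := by
    have h4 : ∀ n ∈ Icc 1 H, ‖fΛ n‖ ^ 2 ≤ (2 * L) ^ 2 := by
      intro n hn
      rw [mem_Icc] at hn
      apply pow_le_pow_left₀ (norm_nonneg _)
      rw [hfΛ, Complex.norm_real, Real.norm_eq_abs]
      have h5 : ArithmeticFunction.vonMangoldt n ≤ 2 * L := by
        refine ArithmeticFunction.vonMangoldt_le_log.trans (le_trans ?_ hlogH2)
        exact Real.log_le_log (by exact_mod_cast hn.1) (by exact_mod_cast hn.2)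
      have h6 : (0 : ℝ) ≤ ArithmeticFunction.vonMangoldt n := ArithmeticFunction.vonMangoldt_nonneg
      have h7 := lamz_nonneg z n
      have h8 := hlz n
      rw [abs_le]
      constructor <;> linarith
    refine (sum_le_sum h4).trans ?_
    rw [sum_const, Nat.card_Icc, nsmul_eq_mul]
    simp
  have hη : 0 < 1 / L ^ V := by positivity
  set S : ℕ → ℂ := fun a => ∑ m ∈ Icc 1 N, c m * fz fΛ H (a + F m) with hS
  set G : ℕ → ℂ := fun a => (starRingEnd ℂ) (S a) / ‖S a‖ with hG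
  have hG1 : ∀ a, ‖G a‖ ≤ 1 := by
    intro m
    rw [hG]
    simp only [norm_div, RCLike.norm_conj, Complex.norm_real, norm_norm]
    exact div_self_le_one _
  have key := bil_main (2 * N + 1) H N M hM1 fΛ G c F (H / L ^ U') (1 / L ^ V) 1 ((M : ℝ) / N)
    (H * (2 * L) ^ 2) hcond (by omega) (by omega) (by omega) hsup1 hG1 hc hmom hfs hη
  have e : ∑ a ∈ Icc 1 (2 * N + 1), ∑ m ∈ Icc 1 N, G a * c m * fz fΛ H (a + F m) =
      ((∑ a ∈ Icc 1 (2 * N + 1), ‖S a‖ : ℝ) : ℂ) := by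
    push_cast
    apply sum_congr rfl
    intro a _
    have e1 : ∑ m ∈ Icc 1 N, G a * c m * fz fΛ H (a + F m) = G a * S a := by
      rw [hS, mul_sum]
      apply sum_congr rfl
      intro a _
      ring
    rw [e1, hG]
    simp only
    by_cases h0 : ‖S a‖ = 0
    · rw [norm_eq_zero.1 h0]; simp
    · have h0' : ((‖S a‖ : ℝ) : ℂ) ≠ 0 := by exact_mod_cast h0
      rw [div_mul_eq_mul_div, mul_comm, Complex.mul_conj', pow_two]
      field_simp
  rw [e, Complex.norm_real, Real.norm_of_nonneg (sum_nonneg fun _ _ => norm_nonneg _)] at key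
  have heq : ∑ b ∈ Icc (-(N : ℤ)) N, ‖∑ m ∈ Icc 1 N, c m * ((LI (u m + b) - LZ z (u m + b) : ℝ) : ℂ)‖ =
      ∑ a ∈ Icc 1 (2 * N + 1), ‖S a‖ := by
    symm
    apply sum_bij (fun (a : ℕ) _ => (a : ℤ) - (N + 1))
    · intro a ha
      rw [mem_Icc] at ha ⊢
      constructor <;> omega
    · intro a _ a' _ h5
      omega
    · intro b hb
      rw [mem_Icc] at hb
      refine ⟨(b + (N + 1)).toNat, ?_, ?_⟩
      · rw [mem_Icc]
        constructor <;> omega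
      · rw [Int.toNat_of_nonneg (by omega)]
        ring
    · intro a ha
      rw [hS]
      simp only
      congr 1
      apply sum_congr rfl
      intro m hm
      congr 1
      have h5 := hum m hm
      have h6 : (a : ℤ) + F m = (u m : ℤ) + ((a : ℤ) - (N + 1)) := by rw [hF]; ring
      rw [h6]
      rw [mem_Icc] at ha
      unfold fz LI LZ
      by_cases h7 : 1 ≤ (u m : ℤ) + ((a : ℤ) - (N + 1))
      · rw [if_pos h7, if_pos h7, if_pos ⟨h7, by omega⟩]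
      · rw [if_neg h7, if_neg h7, if_neg (fun h => h7 h.1)]
        simp
  rw [heq]
  refine key.trans ?_
  have hMr0 : (0 : ℝ) < M := by exact_mod_cast hM1
  have hA : ((2 * N + 1 : ℕ) : ℝ) ≤ 3 * N := by push_cast; linarith
  have hA0 : (0 : ℝ) ≤ ((2 * N + 1 : ℕ) : ℝ) := Nat.cast_nonneg _
  have t1 : (M : ℝ) / N / (1 / L ^ V) ^ (2 * 1) * (H / L ^ U') * ((2 * N + 1 : ℕ) : ℝ) * N / M ≤
      (1 / 2) * ((N : ℝ) ^ 2 / L ^ U) := by
    have h5 : (M : ℝ) / N / (1 / L ^ V) ^ (2 * 1) * (H / L ^ U') * ((2 * N + 1 : ℕ) : ℝ) * N / M =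
        (H * ((2 * N + 1 : ℕ) : ℝ)) * (L ^ (2 * V) / L ^ U') := by
      rw [mul_one, div_pow, one_pow, ← pow_mul, mul_comm V 2]
      field_simp
    have h6 : L ^ (2 * V) / L ^ U' = 1 / L ^ (C + 1) * (1 / L ^ U) * (1 / L) := by
      rw [hU']
      have : L ^ (2 * V + C + U + 2) = L ^ (2 * V) * (L ^ (C + 1) * L ^ U * L) := by
        rw [← pow_add, ← pow_succ, ← pow_add]; congr 1; ring
      rw [this]
      field_simp
    rw [h5, h6]
    have h7 : (H : ℝ) * ((2 * N + 1 : ℕ) : ℝ) ≤ (L ^ (C + 1) * N) * (3 * N) :=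
      mul_le_mul hHle hA hA0 (by positivity)
    calc (H : ℝ) * ((2 * N + 1 : ℕ) : ℝ) * (1 / L ^ (C + 1) * (1 / L ^ U) * (1 / L)) ≤
        (L ^ (C + 1) * N) * (3 * N) * (1 / L ^ (C + 1) * (1 / L ^ U) * (1 / L)) :=
          mul_le_mul_of_nonneg_right h7 (by positivity)
      _ = (3 / L) * ((N : ℝ) ^ 2 / L ^ U) := by field_simp
      _ ≤ (1 / 2) * ((N : ℝ) ^ 2 / L ^ U) := by
          apply mul_le_mul_of_nonneg_right _ (by positivity)
          rw [div_le_iff₀ hL0]; linarith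
  have t2 : 1 / L ^ V * N * Real.sqrt (H * (2 * L) ^ 2 * ((2 * N + 1 : ℕ) : ℝ)) ≤
      (1 / 2) * ((N : ℝ) ^ 2 / L ^ U) := by
    have h5 : Real.sqrt (H * (2 * L) ^ 2 * ((2 * N + 1 : ℕ) : ℝ)) ≤ 4 * N * L ^ (C + 2) := by
      rw [Real.sqrt_le_left (by positivity)]
      have h6 : (H : ℝ) * (2 * L) ^ 2 * ((2 * N + 1 : ℕ) : ℝ) ≤ (L ^ (C + 1) * N) * (2 * L) ^ 2 * (3 * N) :=
        mul_le_mul (mul_le_mul_of_nonneg_right hHle (by positivity)) hA hA0 (by positivity)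
      refine h6.trans ?_
      have h7 : (L ^ (C + 1) * N) * (2 * L) ^ 2 * (3 * N) = 12 * (N : ℝ) ^ 2 * L ^ (C + 3) := by ring
      have h8 : (4 * N * L ^ (C + 2)) ^ 2 = 16 * (N : ℝ) ^ 2 * L ^ (2 * C + 4) := by ring
      rw [h7, h8]
      have h9 : L ^ (C + 3) ≤ L ^ (2 * C + 4) := pow_le_pow_right₀ hL1 (by omega)
      have h10 : (0 : ℝ) ≤ N ^ 2 := by positivity
      have h11 : 0 ≤ L ^ (C + 3) := by positivity
      nlinarith
    calc 1 / L ^ V * N * Real.sqrt (H * (2 * L) ^ 2 * ((2 * N + 1 : ℕ) : ℝ)) ≤ 1 / L ^ V * N * (4 * N * L ^ (C + 2)) :=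
          mul_le_mul_of_nonneg_left h5 (by positivity)
      _ = (4 / L ^ 2) * ((N : ℝ) ^ 2 / L ^ U) := by
          have : L ^ V = L ^ U * L ^ (C + 2) * L ^ 2 := by rw [hV, ← pow_add, ← pow_add]; congr 1
          rw [this]
          field_simp
      _ ≤ (1 / 2) * ((N : ℝ) ^ 2 / L ^ U) := by
          apply mul_le_mul_of_nonneg_right _ (by positivity)
          rw [div_le_iff₀ (by positivity)]; nlinarith
  linarith

end Pool.Agent.V7H49.SH
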