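import Pool.Agent.V7H49.SH.A

/-!
# Almost all pairs of additive shifts (helper49)
-/

set_option autoImplicit false

namespace Pool.Agent.V7H49.SH

open Finset
open Pool.Agent.H373R2.T7

/-- the logarithm at the primes -/
noncomputable def PI (k : ℤ) : ℝ := if 1 ≤ k ∧ k.toNat.Prime then Real.log k else 0

lemma PI_nonneg (k : ℤ) : 0 ≤ PI k := by
  unfold PI
  split_ifs with h
  · exact Real.log_nonneg (by exact_mod_cast h.1)
  · exact le_rfl

lemma PI_le_LI (k : ℤ) : PI k ≤ LI k := by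
  unfold PI
  split_ifs with h
  · unfold LI
    rw [if_pos h.1, ArithmeticFunction.vonMangoldt_apply_prime h.2]
    apply le_of_eq
    congr 1
    have : ((k.toNat : ℤ) : ℝ) = (k : ℝ) := by rw [Int.toNat_of_nonneg (by omega)]
    rw [← this]
    norm_cast
  · exact LI_nonneg k

lemma LI_le {k : ℤ} {H : ℕ} (h : k ≤ H) (hH : 1 ≤ H) : LI k ≤ Real.log H := by
  unfold LI
  split_ifs with h1
  · refine ArithmeticFunction.vonMangoldt_le_log.trans ?_
    apply Real.log_le_log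
    · have : 0 < k.toNat := by omega
      exact_mod_cast this
    · have : k.toNat ≤ H := by omega
      exact_mod_cast this
  · exact Real.log_nonneg (by exact_mod_cast hH)

/-- sizes -/
lemma size (u : ℕ → ℕ) (hu : Slow u) : ∃ C N0 : ℕ, ∀ N : ℕ, N0 ≤ N → ∃ H : ℕ, 1 ≤ H ∧ N ≤ H ∧
    (H : ℝ) ≤ Real.log N ^ C * N ∧ Real.log H ≤ 2 * Real.log N ∧ ∀ m ∈ Icc 1 N, ((u m : ℕ) : ℤ) + N ≤ H := by
  obtain ⟨C, n0, hC⟩ := hu.2.2
  obtain ⟨m3, h3⟩ := ev_L' 8
  obtain ⟨m4, h4⟩ := ev_pow (C + 1)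
  refine ⟨C + 1, max (max m3 3) (max n0 m4), fun N hN => ?_⟩
  have hL8 := h3 N (le_trans (le_trans (le_max_left _ _) (le_max_left _ _)) hN)
  have hN3 : 3 ≤ N := le_trans (le_trans (le_max_right _ _) (le_max_left _ _)) hN
  have hn0 : n0 ≤ N := le_trans (le_trans (le_max_left _ _) (le_max_right _ _)) hN
  have hpw := h4 N (le_trans (le_trans (le_max_right _ _) (le_max_right _ _)) hN)
  have hNr : (3 : ℝ) ≤ N := by exact_mod_cast hN3
  have hN0 : (0 : ℝ) < N := by linarith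
  set L := Real.log N with hLd
  have hL0 : 0 < L := by linarith
  have hL1 : 1 ≤ L := by linarith
  set h : ℕ := ⌈L ^ C⌉₊ + 1 with hh
  have hLC : (1 : ℝ) ≤ L ^ C := one_le_pow₀ hL1
  have hh1 : L ^ C + 1 ≤ h := by rw [hh]; push_cast; linarith [Nat.le_ceil (L ^ C)]
  have hh2 : (h : ℝ) ≤ L ^ (C + 1) := by
    have := (Nat.ceil_lt_add_one (by positivity : (0 : ℝ) ≤ L ^ C)).le
    rw [hh, pow_succ]
    push_cast
    nlinarith
  have hh3 : 2 ≤ h := by
    have : (2 : ℝ) ≤ h := by linarith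
    exact_mod_cast this
  set H : ℕ := h * N with hH
  have hH2 : 2 * N ≤ H := Nat.mul_le_mul_right _ hh3
  have hHN : N ≤ H := by omega
  have hH1 : 1 ≤ H := by omega
  have hHr : (H : ℝ) = h * N := by rw [hH]; push_cast; ring
  have hHr0 : (0 : ℝ) < H := by exact_mod_cast hH1
  have hHle : (H : ℝ) ≤ L ^ (C + 1) * N := by rw [hHr]; exact mul_le_mul_of_nonneg_right hh2 hN0.le
  have hlogH2 : Real.log H ≤ 2 * L := by
    have h5 : (H : ℝ) ≤ N ^ 2 := by
      rw [pow_two]; exact hHle.trans (mul_le_mul_of_nonneg_right hpw hN0.le)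
    have h6 := Real.log_le_log hHr0 h5
    rw [Real.log_pow] at h6
    exact_mod_cast h6
  refine ⟨H, hH1, hHN, hHle, hlogH2, ?_⟩
  intro m hm
  rw [mem_Icc] at hm
  have h5 : (u m : ℝ) ≤ N * L ^ C := by
    refine le_trans ?_ (hC N hn0)
    exact_mod_cast slow_mono hu hm.1 hm.2
  have h6 : ((u m + N : ℕ) : ℝ) ≤ (H : ℝ) := by
    rw [hHr]; push_cast
    nlinarith
  have h7 : u m + N ≤ H := by exact_mod_cast h6
  exact_mod_cast h7

/-- one shift, real weights on a set of indices -/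
lemma weighted {u : ℕ → ℕ} {N z : ℕ} {T : ℝ}
    (h : ∀ c : ℕ → ℂ, (∀ m, ‖c m‖ ≤ 1) →
      ∑ b ∈ Icc (-(N : ℤ)) N, ‖∑ m ∈ Icc 1 N, c m * ((LI (u m + b) - LZ z (u m + b) : ℝ) : ℂ)‖ ≤ T)
    (W : Finset ℕ) (hW : W ⊆ Icc 1 N) (D : ℝ) (hD : 0 < D) (r : ℕ → ℝ) (hr : ∀ m ∈ W, |r m| ≤ D) :
    ∑ b ∈ Icc (-(N : ℤ)) N, |∑ m ∈ W, r m * (LI (u m + b) - LZ z (u m + b))| ≤ D * T := by
  classical
  have h1 := h (fun m => if m ∈ W then ((r m / D : ℝ) : ℂ) else 0) (by
    intro m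
    show ‖(if m ∈ W then ((r m / D : ℝ) : ℂ) else 0)‖ ≤ 1
    split_ifs with hm
    · rw [Complex.norm_real, Real.norm_eq_abs, abs_div, abs_of_pos hD, div_le_one hD]
      exact hr m hm
    · simp)
  have h2 : ∀ b ∈ Icc (-(N : ℤ)) N, |∑ m ∈ W, r m * (LI (u m + b) - LZ z (u m + b))| =
      D * ‖∑ m ∈ Icc 1 N, (if m ∈ W then ((r m / D : ℝ) : ℂ) else 0) * ((LI (u m + b) - LZ z (u m + b) : ℝ) : ℂ)‖ := by
    intro b _
    have h3 : ∑ m ∈ Icc 1 N, (if m ∈ W then ((r m / D : ℝ) : ℂ) else 0) * ((LI (u m + b) - LZ z (u m + b) : ℝ) : ℂ) =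
        ((∑ m ∈ W, r m * (LI (u m + b) - LZ z (u m + b))) / D : ℝ) := by
      rw [← sum_subset hW]
      · push_cast
        rw [sum_div]
        apply sum_congr rfl
        intro m hm
        rw [if_pos hm]
        ring
      · intro m _ hm
        rw [if_neg hm, zero_mul]
    rw [h3, Complex.norm_real, Real.norm_eq_abs, abs_div, abs_of_pos hD]
    field_simp
  rw [sum_congr rfl h2, ← mul_sum]
  exact mul_le_mul_of_nonneg_left h1 hD.le

/-- **Two shifts.** -/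
theorem two (u v : ℕ → ℕ) (hu : Slow u) (hv : Slow v) (U : ℕ) :
    ∃ B : ℕ, ∀ E : ℕ, ∃ N0 : ℕ, ∀ N : ℕ, N0 ≤ N → ∀ z : ℕ, Real.log N ^ B ≤ z → (z : ℝ) ≤ Real.log N ^ E →
    ∀ W : Finset ℕ, W ⊆ Icc 1 N →
    ∑ b ∈ Icc (-(N : ℤ)) N, ∑ d ∈ Icc (-(N : ℤ)) N,
      |∑ m ∈ W, LI (u m + b) * LI (v m + d) - ∑ m ∈ W, LZ z (u m + b) * LZ z (v m + d)| ≤
      (N : ℝ) ^ 3 / Real.log N ^ U := by
  obtain ⟨B1, hB1⟩ := one u hu (U + 2)
  obtain ⟨B2, hB2⟩ := one v hv (U + 2)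
  obtain ⟨_, s2, hs2⟩ := size v hv
  refine ⟨max B1 B2, fun E => ?_⟩
  obtain ⟨N1, hN1⟩ := hB1 E
  obtain ⟨N2, hN2⟩ := hB2 E
  obtain ⟨m2, h2⟩ := Vz_inv_small E
  obtain ⟨m3, h3⟩ := ev_L' 9
  refine ⟨max (max (max N1 N2) (max m2 m3)) (max s2 3), fun N hN z hz1 hz2 W hW => ?_⟩
  have a1 : N1 ≤ N := le_trans (le_trans (le_trans (le_max_left _ _) (le_max_left _ _)) (le_max_left _ _)) hN
  have a2 : N2 ≤ N := le_trans (le_trans (le_trans (le_max_right _ _) (le_max_left _ _)) (le_max_left _ _)) hN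
  have a3 : m2 ≤ N := le_trans (le_trans (le_trans (le_max_left _ _) (le_max_right _ _)) (le_max_left _ _)) hN
  have hL9 := h3 N (le_trans (le_trans (le_trans (le_max_right _ _) (le_max_right _ _)) (le_max_left _ _)) hN)
  have a4 : s2 ≤ N := le_trans (le_trans (le_max_left _ _) (le_max_right _ _)) hN
  have hN3 : 3 ≤ N := le_trans (le_trans (le_max_right _ _) (le_max_right _ _)) hN
  obtain ⟨H, hH1, hHN, _, hlogH, hum⟩ := hs2 N a4
  have hNr : (3 : ℝ) ≤ N := by exact_mod_cast hN3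
  have hN0 : (0 : ℝ) < N := by linarith
  set L := Real.log N with hLd
  have hL0 : 0 < L := by linarith
  have hL1 : 1 ≤ L := by linarith
  have hz1a : L ^ B1 ≤ z := (pow_le_pow_right₀ hL1 (le_max_left _ _)).trans hz1
  have hz1b : L ^ B2 ≤ z := (pow_le_pow_right₀ hL1 (le_max_right _ _)).trans hz1
  have hz : 1 ≤ z := by
    have : (1 : ℝ) ≤ z := (one_le_pow₀ hL1).trans hz1
    exact_mod_cast this
  have k1 := hN1 N a1 z hz1a hz2
  have k2 := hN2 N a2 z hz1b hz2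
  have hVinv := h2 N a3 z hz hz2
  have hlz : ∀ k, LZ z k ≤ L := by
    intro k
    unfold LZ lamz
    split_ifs
    · exact hVinv
    · exact hL0.le
    · exact hL0.le
  have hli : ∀ m ∈ W, ∀ d ∈ Icc (-(N : ℤ)) N, LI (v m + d) ≤ 2 * L := by
    intro m hm d hd
    rw [mem_Icc] at hd
    refine (LI_le (H := H) ?_ hH1).trans hlogH
    have := hum m (hW hm)
    omega
  -- the two parts
  have hsplit : ∀ b ∈ Icc (-(N : ℤ)) N, ∀ d ∈ Icc (-(N : ℤ)) N,
      |∑ m ∈ W, LI (u m + b) * LI (v m + d) - ∑ m ∈ W, LZ z (u m + b) * LZ z (v m + d)| ≤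
      |∑ m ∈ W, LI (v m + d) * (LI (u m + b) - LZ z (u m + b))| +
      |∑ m ∈ W, LZ z (u m + b) * (LI (v m + d) - LZ z (v m + d))| := by
    intro b _ d _
    have h4 : ∑ m ∈ W, LI (u m + b) * LI (v m + d) - ∑ m ∈ W, LZ z (u m + b) * LZ z (v m + d) =
        ∑ m ∈ W, LI (v m + d) * (LI (u m + b) - LZ z (u m + b)) +
        ∑ m ∈ W, LZ z (u m + b) * (LI (v m + d) - LZ z (v m + d)) := by
      rw [← sum_sub_distrib, ← sum_add_distrib]
      apply sum_congr rfl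
      intro m _
      ring
    rw [h4]
    exact abs_add_le _ _
  have hcardR : ((Icc (-(N : ℤ)) N).card : ℝ) ≤ 3 * N := by
    rw [Int.card_Icc]
    have : ((N : ℤ) + 1 - -(N : ℤ)).toNat = 2 * N + 1 := by omega
    rw [this]
    push_cast
    linarith
  refine (sum_le_sum fun b hb => sum_le_sum fun d hd => hsplit b hb d hd).trans ?_
  simp only [sum_add_distrib]
  have p1 : ∑ b ∈ Icc (-(N : ℤ)) N, ∑ d ∈ Icc (-(N : ℤ)) N,
      |∑ m ∈ W, LI (v m + d) * (LI (u m + b) - LZ z (u m + b))| ≤ (3 * N) * ((2 * L) * ((N : ℝ) ^ 2 / L ^ (U + 2))) := by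
    rw [sum_comm]
    have h4 : ∀ d ∈ Icc (-(N : ℤ)) N, ∑ b ∈ Icc (-(N : ℤ)) N,
        |∑ m ∈ W, LI (v m + d) * (LI (u m + b) - LZ z (u m + b))| ≤ (2 * L) * ((N : ℝ) ^ 2 / L ^ (U + 2)) := by
      intro d hd
      refine weighted k1 W hW (2 * L) (by positivity) (fun m => LI (v m + d)) (fun m hm => ?_)
      rw [abs_of_nonneg (LI_nonneg _)]
      exact hli m hm d hd
    refine (sum_le_sum h4).trans ?_
    rw [sum_const, nsmul_eq_mul]
    exact mul_le_mul_of_nonneg_right hcardR (by positivity)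
  have p2 : ∑ b ∈ Icc (-(N : ℤ)) N, ∑ d ∈ Icc (-(N : ℤ)) N,
      |∑ m ∈ W, LZ z (u m + b) * (LI (v m + d) - LZ z (v m + d))| ≤ (3 * N) * (L * ((N : ℝ) ^ 2 / L ^ (U + 2))) := by
    have h4 : ∀ b ∈ Icc (-(N : ℤ)) N, ∑ d ∈ Icc (-(N : ℤ)) N,
        |∑ m ∈ W, LZ z (u m + b) * (LI (v m + d) - LZ z (v m + d))| ≤ L * ((N : ℝ) ^ 2 / L ^ (U + 2)) := by
      intro b _
      refine weighted k2 W hW L hL0 (fun m => LZ z (u m + b)) (fun m _ => ?_)
      rw [abs_of_nonneg (LZ_nonneg _ _)]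
      exact hlz _
    refine (sum_le_sum h4).trans ?_
    rw [sum_const, nsmul_eq_mul]
    exact mul_le_mul_of_nonneg_right hcardR (by positivity)
  refine (add_le_add p1 p2).trans ?_
  have e : (3 * N) * ((2 * L) * ((N : ℝ) ^ 2 / L ^ (U + 2))) + (3 * N) * (L * ((N : ℝ) ^ 2 / L ^ (U + 2))) =
      (9 / L) * ((N : ℝ) ^ 3 / L ^ U) := by
    rw [pow_add]
    field_simp
    ring
  rw [e]
  have h5 : 9 / L ≤ 1 := by rw [div_le_one hL0]; exact hL9
  calc (9 / L) * ((N : ℝ) ^ 3 / L ^ U) ≤ 1 * ((N : ℝ) ^ 3 / L ^ U) := mul_le_mul_of_nonneg_right h5 (by positivity)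
    _ = _ := one_mul _

/-- proper prime powers are rare along a sequence -/
theorem powers (u : ℕ → ℕ) (hu : Slow u) (U : ℕ) : ∃ N0 : ℕ, ∀ N : ℕ, N0 ≤ N → ∀ W : Finset ℕ, W ⊆ Icc 1 N →
    ∀ b ∈ Icc (-(N : ℤ)) N, ∑ m ∈ W, (LI (u m + b) - PI (u m + b)) ≤ N / Real.log N ^ U := by
  classical
  obtain ⟨C, s, hs⟩ := size u hu
  obtain ⟨m3, h3⟩ := ev_L' 1
  obtain ⟨m4, h4⟩ := ev_pow (C + 2 * (U + 2))
  obtain ⟨m5, h5⟩ := ev_L' 4
  refine ⟨max (max s m3) (max m4 (max m5 3)), fun N hN W hW b hb => ?_⟩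
  have a1 : s ≤ N := le_trans (le_trans (le_max_left _ _) (le_max_left _ _)) hN
  have hL1 := h3 N (le_trans (le_trans (le_max_right _ _) (le_max_left _ _)) hN)
  have hpw := h4 N (le_trans (le_trans (le_max_left _ _) (le_max_right _ _)) hN)
  have hL4 := h5 N (le_trans (le_trans (le_trans (le_max_left _ _) (le_max_right _ _)) (le_max_right _ _)) hN)
  have hN3 : 3 ≤ N := le_trans (le_trans (le_trans (le_max_right _ _) (le_max_right _ _)) (le_max_right _ _)) hN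
  obtain ⟨H, hH1, hHN, hHle, hlogH, hum⟩ := hs N a1
  have hNr : (3 : ℝ) ≤ N := by exact_mod_cast hN3
  have hN0 : (0 : ℝ) < N := by linarith
  set L := Real.log N with hLd
  have hL0 : 0 < L := by linarith
  rw [mem_Icc] at hb
  -- the sum over all integers up to `H`
  have h6 : ∑ m ∈ W, (LI (u m + b) - PI (u m + b)) ≤ ∑ n ∈ Ioc 0 H, (LI (n : ℤ) - PI (n : ℤ)) := by
    have h7 : ∑ m ∈ W, (LI (u m + b) - PI (u m + b)) =
        ∑ m ∈ W.filter (fun m => 1 ≤ (u m : ℤ) + b), (LI (u m + b) - PI (u m + b)) := by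
      rw [sum_filter_of_ne]
      intro m _ hne
      by_contra hlt
      apply hne
      unfold LI PI
      rw [if_neg hlt, if_neg (fun h => hlt h.1), sub_zero]
    rw [h7]
    have h8 : ∑ m ∈ W.filter (fun m => 1 ≤ (u m : ℤ) + b), (LI (u m + b) - PI (u m + b)) =
        ∑ n ∈ (W.filter (fun m => 1 ≤ (u m : ℤ) + b)).image (fun m => ((u m : ℤ) + b).toNat),
          (LI (n : ℤ) - PI (n : ℤ)) := by
      rw [sum_image]
      · apply sum_congr rfl
        intro m hm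
        rw [mem_filter] at hm
        rw [Int.toNat_of_nonneg (by omega)]
      · intro m hm m' hm' he
        rw [mem_coe, mem_filter] at hm hm'
        have e1 := (mem_Icc.1 (hW hm.1)).1
        have e2 := (mem_Icc.1 (hW hm'.1)).1
        apply slow_inj hu e1 e2
        simp only at he
        omega
    rw [h8]
    apply sum_le_sum_of_subset_of_nonneg
    · intro n hn
      obtain ⟨m, hm, rfl⟩ := mem_image.1 hn
      rw [mem_filter] at hm
      have := hum m (hW hm.1)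
      rw [mem_Ioc]
      constructor <;> omega
    · intro n _ _
      exact sub_nonneg.2 (PI_le_LI _)
  refine h6.trans ?_
  have h9 : ∑ n ∈ Ioc 0 H, (LI (n : ℤ) - PI (n : ℤ)) = Chebyshev.psi H - Chebyshev.theta H := by
    rw [sum_sub_distrib]
    unfold Chebyshev.psi Chebyshev.theta
    rw [Nat.floor_natCast, sum_filter]
    congr 1
    · apply sum_congr rfl
      intro n hn
      rw [mem_Ioc] at hn
      unfold LI
      rw [if_pos (by omega), Int.toNat_natCast]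
    · apply sum_congr rfl
      intro n hn
      rw [mem_Ioc] at hn
      unfold PI
      rw [Int.toNat_natCast]
      by_cases hp : n.Prime
      · rw [if_pos ⟨by omega, hp⟩, if_pos hp]
        push_cast
        rfl
      · rw [if_neg (fun h => hp h.2), if_neg hp]
  rw [h9]
  have hHr : (1 : ℝ) ≤ H := by exact_mod_cast hH1
  refine (Chebyshev.psi_sub_theta_le hHr).trans ?_
  have hsq : Real.sqrt H ≤ N / L ^ (U + 2) := by
    rw [Real.sqrt_le_left (by positivity)]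
    refine hHle.trans ?_
    rw [div_pow, le_div_iff₀ (by positivity), ← pow_mul]
    have h10 : L ^ C * N * L ^ ((U + 2) * 2) = L ^ (C + 2 * (U + 2)) * N := by rw [pow_add, mul_comm 2 (U + 2)]; ring
    rw [h10, pow_two]
    exact mul_le_mul_of_nonneg_right hpw hN0.le
  calc 2 * Real.sqrt H * Real.log H ≤ 2 * (N / L ^ (U + 2)) * (2 * L) := by
        apply mul_le_mul _ hlogH (Real.log_nonneg hHr) (by positivity)
        exact mul_le_mul_of_nonneg_left hsq (by norm_num)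
    _ = (4 / L) * (N / L ^ U) := by rw [pow_add]; field_simp; ring
    _ ≤ 1 * (N / L ^ U) := by
        apply mul_le_mul_of_nonneg_right _ (by positivity)
        rw [div_le_one hL0]; exact hL4
    _ = _ := one_mul _

end Pool.Agent.V7H49.SH
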