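import Pool.Agent.V7H49.SH.B

/-!
# Almost all pairs of additive shifts: counting (helper49)
-/

set_option autoImplicit false

namespace Pool.Agent.V7H49.SH

open Finset
open Pool.Agent.H373R2.T7

/-- the weighted number of the indices in `W` at which both shifted sequences are prime -/
noncomputable def SP (u v : ℕ → ℕ) (W : Finset ℕ) (b d : ℤ) : ℝ := ∑ m ∈ W, PI (u m + b) * PI (v m + d)

/-- the prediction of the sieve model -/
noncomputable def Mo (z : ℕ) (u v : ℕ → ℕ) (W : Finset ℕ) (b d : ℤ) : ℝ := ∑ m ∈ W, LZ z (u m + b) * LZ z (v m + d)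

/-- **Two shifts, primes.** -/
theorem three (u v : ℕ → ℕ) (hu : Slow u) (hv : Slow v) (U : ℕ) :
    ∃ B : ℕ, ∀ E : ℕ, ∃ N0 : ℕ, ∀ N : ℕ, N0 ≤ N → ∀ z : ℕ, Real.log N ^ B ≤ z → (z : ℝ) ≤ Real.log N ^ E →
    ∀ W : Finset ℕ, W ⊆ Icc 1 N →
    ∑ b ∈ Icc (-(N : ℤ)) N, ∑ d ∈ Icc (-(N : ℤ)) N, |SP u v W b d - Mo z u v W b d| ≤
      (N : ℝ) ^ 3 / Real.log N ^ U := by
  obtain ⟨B, hB⟩ := two u v hu hv (U + 1)
  obtain ⟨_, s1, hs1⟩ := size u hu
  obtain ⟨_, s2, hs2⟩ := size v hv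
  obtain ⟨p1, hp1⟩ := powers u hu (U + 2)
  obtain ⟨p2, hp2⟩ := powers v hv (U + 2)
  refine ⟨B, fun E => ?_⟩
  obtain ⟨N1, hN1⟩ := hB E
  obtain ⟨m3, h3⟩ := ev_L' 40
  refine ⟨max (max (max N1 s1) (max s2 p1)) (max (max p2 m3) 3), fun N hN z hz1 hz2 W hW => ?_⟩
  have a1 : N1 ≤ N := le_trans (le_trans (le_trans (le_max_left _ _) (le_max_left _ _)) (le_max_left _ _)) hN
  have a2 : s1 ≤ N := le_trans (le_trans (le_trans (le_max_right _ _) (le_max_left _ _)) (le_max_left _ _)) hN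
  have a3 : s2 ≤ N := le_trans (le_trans (le_trans (le_max_left _ _) (le_max_right _ _)) (le_max_left _ _)) hN
  have a4 : p1 ≤ N := le_trans (le_trans (le_trans (le_max_right _ _) (le_max_right _ _)) (le_max_left _ _)) hN
  have a5 : p2 ≤ N := le_trans (le_trans (le_trans (le_max_left _ _) (le_max_left _ _)) (le_max_right _ _)) hN
  have hL40 := h3 N (le_trans (le_trans (le_trans (le_max_right _ _) (le_max_left _ _)) (le_max_right _ _)) hN)
  have hN3 : 3 ≤ N := le_trans (le_trans (le_max_right _ _) (le_max_right _ _)) hN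
  obtain ⟨H1, hH11, _, _, hlogH1, hum1⟩ := hs1 N a2
  obtain ⟨H2, hH21, _, _, hlogH2, hum2⟩ := hs2 N a3
  have hNr : (3 : ℝ) ≤ N := by exact_mod_cast hN3
  have hN0 : (0 : ℝ) < N := by linarith
  set L := Real.log N with hLd
  have hL0 : 0 < L := by linarith
  have key := hN1 N a1 z hz1 hz2 W hW
  have hcardR : ((Icc (-(N : ℤ)) N).card : ℝ) ≤ 3 * N := by
    rw [Int.card_Icc]
    have : ((N : ℤ) + 1 - -(N : ℤ)).toNat = 2 * N + 1 := by omega
    rw [this]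
    push_cast
    linarith
  have hpt : ∀ b ∈ Icc (-(N : ℤ)) N, ∀ d ∈ Icc (-(N : ℤ)) N, |SP u v W b d - Mo z u v W b d| ≤
      |∑ m ∈ W, LI (u m + b) * LI (v m + d) - ∑ m ∈ W, LZ z (u m + b) * LZ z (v m + d)| +
      4 * L * (N / L ^ (U + 2)) := by
    intro b hb d hd
    have e1 := hp1 N a4 W hW b hb
    have e2 := hp2 N a5 W hW d hd
    rw [mem_Icc] at hb hd
    have c1 : ∀ m ∈ W, LI (v m + d) ≤ 2 * L := by
      intro m hm
      refine (LI_le (H := H2) ?_ hH21).trans hlogH2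
      have := hum2 m (hW hm)
      omega
    have c2 : ∀ m ∈ W, PI (u m + b) ≤ 2 * L := by
      intro m hm
      refine (PI_le_LI _).trans ((LI_le (H := H1) ?_ hH11).trans hlogH1)
      have := hum1 m (hW hm)
      omega
    have g1 : ∑ m ∈ W, LI (u m + b) * LI (v m + d) - SP u v W b d =
        ∑ m ∈ W, (LI (u m + b) - PI (u m + b)) * LI (v m + d) + ∑ m ∈ W, PI (u m + b) * (LI (v m + d) - PI (v m + d)) := by
      unfold SP
      rw [← sum_sub_distrib, ← sum_add_distrib]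
      apply sum_congr rfl
      intro m _
      ring
    have g2 : ∑ m ∈ W, (LI (u m + b) - PI (u m + b)) * LI (v m + d) ≤ (N / L ^ (U + 2)) * (2 * L) := by
      refine le_trans (sum_le_sum fun m hm => mul_le_mul_of_nonneg_left (c1 m hm) (sub_nonneg.2 (PI_le_LI _))) ?_
      rw [← sum_mul]
      exact mul_le_mul_of_nonneg_right e1 (by positivity)
    have g3 : ∑ m ∈ W, PI (u m + b) * (LI (v m + d) - PI (v m + d)) ≤ (2 * L) * (N / L ^ (U + 2)) := by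
      refine le_trans (sum_le_sum fun m hm => mul_le_mul_of_nonneg_right (c2 m hm) (sub_nonneg.2 (PI_le_LI _))) ?_
      rw [← mul_sum]
      exact mul_le_mul_of_nonneg_left e2 (by positivity)
    have g4 : 0 ≤ ∑ m ∈ W, LI (u m + b) * LI (v m + d) - SP u v W b d := by
      unfold SP
      rw [← sum_sub_distrib]
      apply sum_nonneg
      intro m _
      exact sub_nonneg.2 (mul_le_mul (PI_le_LI _) (PI_le_LI _) (PI_nonneg _) (LI_nonneg _))
    unfold Mo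
    have g5 : |∑ m ∈ W, LI (u m + b) * LI (v m + d) - SP u v W b d| ≤ 4 * L * (N / L ^ (U + 2)) := by
      rw [abs_of_nonneg g4, g1]
      linarith
    have g6 : SP u v W b d - ∑ m ∈ W, LZ z (u m + b) * LZ z (v m + d) =
        (∑ m ∈ W, LI (u m + b) * LI (v m + d) - ∑ m ∈ W, LZ z (u m + b) * LZ z (v m + d)) -
        (∑ m ∈ W, LI (u m + b) * LI (v m + d) - SP u v W b d) := by ring
    rw [g6]
    refine (abs_sub _ _).trans ?_
    linarith
  refine (sum_le_sum fun b hb => sum_le_sum fun d hd => hpt b hb d hd).trans ?_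
  simp only [sum_add_distrib, sum_const, nsmul_eq_mul]
  have hc0 : (0 : ℝ) ≤ ((Icc (-(N : ℤ)) N).card : ℝ) := Nat.cast_nonneg _
  have t1 : ((Icc (-(N : ℤ)) N).card : ℝ) * (((Icc (-(N : ℤ)) N).card : ℝ) * (4 * L * (N / L ^ (U + 2)))) ≤
      (36 / L) * ((N : ℝ) ^ 3 / L ^ U) := by
    have hX : 0 ≤ 4 * L * (N / L ^ (U + 2)) := by positivity
    calc ((Icc (-(N : ℤ)) N).card : ℝ) * (((Icc (-(N : ℤ)) N).card : ℝ) * (4 * L * (N / L ^ (U + 2)))) ≤
        (3 * N) * ((3 * N) * (4 * L * (N / L ^ (U + 2)))) :=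
          mul_le_mul hcardR (mul_le_mul_of_nonneg_right hcardR hX) (by positivity) (by positivity)
      _ = (36 / L) * ((N : ℝ) ^ 3 / L ^ U) := by rw [pow_add]; field_simp; ring
  have t2 : (N : ℝ) ^ 3 / L ^ (U + 1) = (1 / L) * ((N : ℝ) ^ 3 / L ^ U) := by rw [pow_succ L U]; field_simp
  rw [t2] at key
  have h5 : 37 / L ≤ 1 := by rw [div_le_one hL0]; linarith
  have h6 : (0 : ℝ) ≤ (N : ℝ) ^ 3 / L ^ U := by positivity
  have h7 : (1 / L) * ((N : ℝ) ^ 3 / L ^ U) + (36 / L) * ((N : ℝ) ^ 3 / L ^ U) = (37 / L) * ((N : ℝ) ^ 3 / L ^ U) := by ring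
  have h8 : (37 / L) * ((N : ℝ) ^ 3 / L ^ U) ≤ 1 * ((N : ℝ) ^ 3 / L ^ U) := mul_le_mul_of_nonneg_right h5 h6
  linarith

open Classical in
/-- **All but few pairs of shifts, all but few `n`.** -/
theorem four (u v : ℕ → ℕ) (hu : Slow u) (hv : Slow v) (K : ℕ) :
    ∃ B : ℕ, ∀ E : ℕ, ∃ N0 : ℕ, ∀ N : ℕ, N0 ≤ N → ∀ z : ℕ, Real.log N ^ B ≤ z → (z : ℝ) ≤ Real.log N ^ E →
    ∀ W : ℕ → Finset ℕ, (∀ n, W n ⊆ Icc 1 n) →
    (((Icc (-(N : ℤ)) N ×ˢ Icc (-(N : ℤ)) N).filter fun s => (N : ℝ) / Real.log N ^ K <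
      (((Icc 1 N).filter fun n : ℕ => (N : ℝ) / Real.log N ^ K <
        |SP u v (W n) s.1 s.2 - Mo z u v (W n) s.1 s.2|).card : ℝ)).card : ℝ) ≤ (N : ℝ) ^ 2 / Real.log N ^ K := by
  obtain ⟨B, hB⟩ := three u v hu hv (3 * K)
  refine ⟨B, fun E => ?_⟩
  obtain ⟨N1, hN1⟩ := hB E
  refine ⟨max N1 3, fun N hN z hz1 hz2 W hW => ?_⟩
  have a1 : N1 ≤ N := (le_max_left _ _).trans hN
  have hN3 : 3 ≤ N := (le_max_right _ _).trans hN
  have hNr : (3 : ℝ) ≤ N := by exact_mod_cast hN3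
  have hN0 : (0 : ℝ) < N := by linarith
  set L := Real.log N with hLd
  have hL0 : 0 < L := Real.log_pos (by linarith)
  set T := Icc (-(N : ℤ)) N ×ˢ Icc (-(N : ℤ)) N with hT
  set Bad := T.filter fun s => (N : ℝ) / L ^ K <
      (((Icc 1 N).filter fun n : ℕ => (N : ℝ) / L ^ K <
        |SP u v (W n) s.1 s.2 - Mo z u v (W n) s.1 s.2|).card : ℝ) with hBad
  have h1 : ∑ s ∈ T, ∑ n ∈ Icc 1 N, |SP u v (W n) s.1 s.2 - Mo z u v (W n) s.1 s.2| ≤
      N * ((N : ℝ) ^ 3 / L ^ (3 * K)) := by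
    rw [sum_comm]
    have h2 : ∀ n ∈ Icc 1 N, ∑ s ∈ T, |SP u v (W n) s.1 s.2 - Mo z u v (W n) s.1 s.2| ≤
        (N : ℝ) ^ 3 / L ^ (3 * K) := by
      intro n hn
      rw [mem_Icc] at hn
      rw [hT, sum_product]
      exact hN1 N a1 z hz1 hz2 (W n) ((hW n).trans (Icc_subset_Icc le_rfl hn.2))
    refine (sum_le_sum h2).trans ?_
    rw [sum_const, Nat.card_Icc, nsmul_eq_mul, Nat.add_sub_cancel]
  have h3 : (Bad.card : ℝ) * ((N : ℝ) / L ^ K * (N / L ^ K)) ≤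
      ∑ s ∈ T, ∑ n ∈ Icc 1 N, |SP u v (W n) s.1 s.2 - Mo z u v (W n) s.1 s.2| := by
    have h4 : ∀ s ∈ Bad, (N : ℝ) / L ^ K * (N / L ^ K) ≤
        ∑ n ∈ Icc 1 N, |SP u v (W n) s.1 s.2 - Mo z u v (W n) s.1 s.2| := by
      intro s hs
      rw [hBad, mem_filter] at hs
      set G := (Icc 1 N).filter fun n : ℕ => (N : ℝ) / L ^ K < |SP u v (W n) s.1 s.2 - Mo z u v (W n) s.1 s.2| with hG
      calc (N : ℝ) / L ^ K * (N / L ^ K) ≤ (G.card : ℝ) * (N / L ^ K) :=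
            mul_le_mul_of_nonneg_right hs.2.le (by positivity)
        _ = ∑ n ∈ G, (N : ℝ) / L ^ K := by rw [sum_const, nsmul_eq_mul]
        _ ≤ ∑ n ∈ G, |SP u v (W n) s.1 s.2 - Mo z u v (W n) s.1 s.2| := by
            apply sum_le_sum
            intro n hn
            rw [hG, mem_filter] at hn
            exact hn.2.le
        _ ≤ _ := sum_le_sum_of_subset_of_nonneg (filter_subset _ _) (fun _ _ _ => abs_nonneg _)
    calc (Bad.card : ℝ) * ((N : ℝ) / L ^ K * (N / L ^ K)) = ∑ s ∈ Bad, (N : ℝ) / L ^ K * (N / L ^ K) := by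
          rw [sum_const, nsmul_eq_mul]
      _ ≤ ∑ s ∈ Bad, ∑ n ∈ Icc 1 N, |SP u v (W n) s.1 s.2 - Mo z u v (W n) s.1 s.2| := sum_le_sum h4
      _ ≤ _ := sum_le_sum_of_subset_of_nonneg (filter_subset _ _) (fun _ _ _ => sum_nonneg fun _ _ => abs_nonneg _)
  have h5 := h3.trans h1
  have h6 : 0 < (N : ℝ) / L ^ K * (N / L ^ K) := by positivity
  rw [← le_div_iff₀ h6] at h5
  refine h5.trans (le_of_eq ?_)
  have : L ^ (3 * K) = L ^ K * L ^ K * L ^ K := by rw [← pow_add, ← pow_add]; congr 1; ring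
  rw [this]
  field_simp

end Pool.Agent.V7H49.SH
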