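import Pool.Agent.V7H49.SH.C

/-!
# Many pairs of additive shifts (helper49)
-/

set_option autoImplicit false

namespace Pool.Agent.V7H49.SH

open Finset
open Pool.Agent.H373R2.T7

lemma tel (z : ℕ) (hz : 1 ≤ z) : ∑ n ∈ Icc 2 z, 1 / ((n : ℝ) * (n - 1)) ≤ 1 - 1 / z := by
  induction z, hz using Nat.le_induction with
  | base => simp
  | succ z hz ih =>
    rw [sum_Icc_succ_top (by omega)]
    have hz0 : (0 : ℝ) < z := by exact_mod_cast hz
    have e : 1 / (((z + 1 : ℕ) : ℝ) * (((z + 1 : ℕ) : ℝ) - 1)) = 1 / z - 1 / ((z + 1 : ℕ) : ℝ) := by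
      push_cast
      rw [add_sub_cancel_right]
      field_simp
      ring
    rw [e]
    linarith

lemma Vinv : ∃ C : ℝ, 0 < C ∧ ∀ z : ℕ, 3 ≤ z → (Vz z)⁻¹ ≤ C * Real.log z := by
  obtain ⟨C, hC⟩ := Pool.Agent.Helper256.KM.mertens_inv
  refine ⟨Real.exp (C + 1), Real.exp_pos _, fun z h3 => ?_⟩
  have h4 := hC z h3
  have hsq : ∑ p ∈ pz z, 1 / ((p : ℝ) * (p - 1)) ≤ 1 := by
    have h5 : ∑ p ∈ pz z, 1 / ((p : ℝ) * (p - 1)) ≤ ∑ n ∈ Icc 2 z, 1 / ((n : ℝ) * (n - 1)) := by
      apply sum_le_sum_of_subset_of_nonneg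
      · intro p hp
        rw [mem_pz] at hp
        rw [mem_Icc]
        exact ⟨hp.2.two_le, hp.1⟩
      · intro n hn _
        rw [mem_Icc] at hn
        have : (2 : ℝ) ≤ n := by exact_mod_cast hn.1
        have h6 : (0 : ℝ) < (n : ℝ) * (n - 1) := by nlinarith
        positivity
    have h6 := tel z (by omega)
    have h7 : (0 : ℝ) ≤ 1 / z := by positivity
    linarith
  have h5 : (Vz z)⁻¹ ≤ Real.exp (∑ p ∈ pz z, (1 / (p : ℝ) + 1 / ((p : ℝ) * (p - 1)))) := by
    unfold Vz
    rw [← prod_inv_distrib, Real.exp_sum]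
    apply prod_le_prod
    · intro p hp
      have hp2 : (2 : ℝ) ≤ p := by exact_mod_cast (mem_pz.1 hp).2.two_le
      apply inv_nonneg.2
      rw [sub_nonneg, div_le_one (by linarith)]; linarith
    · intro p hp
      have hp2 : (2 : ℝ) ≤ p := by exact_mod_cast (mem_pz.1 hp).2.two_le
      have hp1 : (p : ℝ) - 1 ≠ 0 := by intro h; linarith
      have hp0 : (p : ℝ) ≠ 0 := by intro h; linarith
      have h6 : (1 - 1 / (p : ℝ))⁻¹ = (1 / (p : ℝ) + 1 / ((p : ℝ) * (p - 1))) + 1 := by
        have : (1 - 1 / (p : ℝ)) = (p - 1) / p := by field_simp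
        rw [this, inv_div]
        field_simp
        ring
      rw [h6]
      exact Real.add_one_le_exp _
  have hz3 : (3 : ℝ) ≤ z := by exact_mod_cast h3
  have hlz : 1 ≤ Real.log z := by
    rw [← Real.log_exp 1]
    apply Real.log_le_log (Real.exp_pos _)
    have := Real.exp_one_lt_d9
    linarith
  have h6 : ∑ p ∈ pz z, 1 / (p : ℝ) ≤ Real.log (Real.log z) + C := by
    have := (abs_le.1 h4).2
    unfold pz
    linarith
  refine h5.trans ?_
  rw [sum_add_distrib]
  have h7 : ∑ p ∈ pz z, 1 / (p : ℝ) + ∑ p ∈ pz z, 1 / ((p : ℝ) * (p - 1)) ≤ (C + 1) + Real.log (Real.log z) := by linarith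
  refine (Real.exp_le_exp.2 h7).trans (le_of_eq ?_)
  rw [Real.exp_add, Real.exp_log (by linarith)]

/-- the prime number theorem, uniformly up to `N (log N)^C` -/
lemma pnt_unif (C : ℕ) : ∃ N0 : ℕ, ∀ N : ℕ, N0 ≤ N → ∀ y : ℕ, (y : ℝ) ≤ Real.log N ^ C * N →
    |Chebyshev.theta y - y| ≤ N / 8 := by
  obtain ⟨D, N1, hD, h1⟩ := pnt_lam (C + 1)
  obtain ⟨m2, h2⟩ := ev_L' (max 6 (64 * D * 2 ^ (C + 1)))
  obtain ⟨m3, h3⟩ := ev_pow (C + 3)
  obtain ⟨m4, h4⟩ := ev_L' 262144
  refine ⟨max (max (16 * N1) m2) (max (max m3 m4) 1000), fun N hN y hy => ?_⟩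
  have a1 : 16 * N1 ≤ N := le_trans (le_trans (le_max_left _ _) (le_max_left _ _)) hN
  have hL := h2 N (le_trans (le_trans (le_max_right _ _) (le_max_left _ _)) hN)
  have hpw := h3 N (le_trans (le_trans (le_trans (le_max_left _ _) (le_max_left _ _)) (le_max_right _ _)) hN)
  have hLb := h4 N (le_trans (le_trans (le_trans (le_max_right _ _) (le_max_left _ _)) (le_max_right _ _)) hN)
  have hN1000 : 1000 ≤ N := le_trans (le_trans (le_max_right _ _) (le_max_right _ _)) hN
  have hNr : (1000 : ℝ) ≤ N := by exact_mod_cast hN1000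
  have hN0 : (0 : ℝ) < N := by linarith
  set L := Real.log N with hLd
  have hL6 : 6 ≤ L := (le_max_left _ _).trans hL
  have hLD : 64 * D * 2 ^ (C + 1) ≤ L := (le_max_right _ _).trans hL
  have hL0 : 0 < L := by linarith
  have hL1 : 1 ≤ L := by linarith
  have hy0 : (0 : ℝ) ≤ y := Nat.cast_nonneg y
  rcases Nat.lt_or_ge N (16 * y) with hlt | hge
  · -- large `y`
    have hyN : (N : ℝ) < 16 * y := by exact_mod_cast hlt
    have hy1 : (1 : ℝ) ≤ y := by linarith
    have hyN1 : N1 ≤ y := by omega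
    have hlog16 : Real.log 16 ≤ 3 := by
      have : (16 : ℝ) = 2 ^ 4 := by norm_num
      rw [this, Real.log_pow]
      have := Real.log_two_lt_d9
      push_cast
      linarith
    have hly : L / 2 ≤ Real.log y := by
      have h5 : Real.log N ≤ Real.log (16 * y) := Real.log_le_log hN0 hyN.le
      rw [Real.log_mul (by norm_num) (by linarith)] at h5
      linarith
    have hly2 : Real.log y ≤ 2 * L := by
      have h5 : (y : ℝ) ≤ N ^ 2 := by
        refine hy.trans ?_
        rw [pow_two]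
        apply mul_le_mul_of_nonneg_right _ hN0.le
        exact (pow_le_pow_right₀ hL1 (by omega)).trans hpw
      have h6 := Real.log_le_log (by linarith) h5
      rw [Real.log_pow] at h6
      exact_mod_cast h6
    have e1 := h1 y hyN1
    rw [lam1_eq] at e1
    have e2 : D * (y / Real.log y ^ (C + 1)) ≤ N / 64 := by
      have h5 : (y : ℝ) / Real.log y ^ (C + 1) ≤ (L ^ C * N) / (L / 2) ^ (C + 1) := by
        apply div_le_div₀ (by positivity) hy (by positivity)
        exact pow_le_pow_left₀ (by positivity) hly _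
      have h6 : (L ^ C * N) / (L / 2) ^ (C + 1) = 2 ^ (C + 1) * N / L := by
        rw [div_pow, pow_succ L C]
        field_simp
      rw [h6] at h5
      calc D * (y / Real.log y ^ (C + 1)) ≤ D * (2 ^ (C + 1) * N / L) := mul_le_mul_of_nonneg_left h5 hD.le
        _ = (64 * D * 2 ^ (C + 1) / L) * (N / 64) := by field_simp
        _ ≤ 1 * (N / 64) := by
            apply mul_le_mul_of_nonneg_right _ (by positivity)
            rw [div_le_one hL0]; exact hLD
        _ = N / 64 := one_mul _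
    have e3 := Chebyshev.psi_sub_theta_le hy1
    have e4 := Chebyshev.theta_le_psi (y : ℝ)
    have hsq : Real.sqrt y ≤ N / (256 * L) := by
      rw [Real.sqrt_le_left (by positivity)]
      refine hy.trans ?_
      rw [div_pow, le_div_iff₀ (by positivity)]
      have h5 : L ^ C * N * (256 * L) ^ 2 = 65536 * L ^ (C + 2) * N := by ring
      rw [h5, pow_two]
      apply mul_le_mul_of_nonneg_right _ hN0.le
      have h6 : L ^ (C + 3) = L * L ^ (C + 2) := by ring
      rw [h6] at hpw
      have h7 : 0 < L ^ (C + 2) := by positivity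
      nlinarith
    have e5 : 2 * Real.sqrt y * Real.log y ≤ N / 64 := by
      calc 2 * Real.sqrt y * Real.log y ≤ 2 * (N / (256 * L)) * (2 * L) := by
            apply mul_le_mul (mul_le_mul_of_nonneg_left hsq (by norm_num)) hly2 (Real.log_nonneg hy1) (by positivity)
        _ = N / 64 := by field_simp; norm_num
    rw [abs_le] at e1 ⊢
    constructor <;> linarith [e1.1, e1.2]
  · -- small `y`
    have hyN : 16 * (y : ℝ) ≤ N := by exact_mod_cast hge
    have e1 := Chebyshev.theta_le_log4_mul_x hy0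
    have e2 := Chebyshev.theta_nonneg (y : ℝ)
    have hl4 : Real.log 4 ≤ 2 := by
      have : (4 : ℝ) = 2 ^ 2 := by norm_num
      rw [this, Real.log_pow]
      have := Real.log_two_lt_d9
      push_cast
      linarith
    have e3 : Real.log 4 * (y : ℝ) ≤ 2 * y := mul_le_mul_of_nonneg_right hl4 hy0
    rw [abs_le]
    constructor <;> linarith

/-- one shifted value is prime for the expected number of shifts -/
lemma window (u : ℕ → ℕ) (hu : Slow u) : ∃ N0 : ℕ, ∀ N : ℕ, N0 ≤ N → ∀ m ∈ Icc 1 N,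
    (N : ℝ) / 2 ≤ ∑ b ∈ Icc (-(N : ℤ)) N, PI (u m + b) := by
  obtain ⟨C, s, hs⟩ := size u hu
  obtain ⟨m1, h1⟩ := pnt_unif C
  refine ⟨max s m1, fun N hN m hm => ?_⟩
  obtain ⟨H, _, _, hHle, _, hum⟩ := hs N ((le_max_left _ _).trans hN)
  have hm' := hum m hm
  have e1 := h1 N ((le_max_right _ _).trans hN) (u m) (by
    refine le_trans ?_ hHle
    have : u m ≤ H := by omega
    exact_mod_cast this)
  have e2 := h1 N ((le_max_right _ _).trans hN) (u m + N) (by
    refine le_trans ?_ hHle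
    have : u m + N ≤ H := by omega
    exact_mod_cast this)
  have e3 : Chebyshev.theta ((u m + N : ℕ) : ℝ) - Chebyshev.theta ((u m : ℕ) : ℝ) =
      ∑ j ∈ Ioc (u m) (u m + N), PI (j : ℤ) := by
    unfold Chebyshev.theta
    rw [Nat.floor_natCast, Nat.floor_natCast, sum_filter, sum_filter]
    have h5 : Ioc 0 (u m + N) = Ioc 0 (u m) ∪ Ioc (u m) (u m + N) := by
      rw [Ioc_union_Ioc_eq_Ioc (Nat.zero_le _) (by omega)]
    rw [h5, sum_union (Ioc_disjoint_Ioc_of_le le_rfl), add_sub_cancel_left]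
    apply sum_congr rfl
    intro n hn
    rw [mem_Ioc] at hn
    unfold PI
    rw [Int.toNat_natCast]
    by_cases hp : n.Prime
    · rw [if_pos hp, if_pos ⟨by omega, hp⟩]
      push_cast
      rfl
    · rw [if_neg hp, if_neg (fun h => hp h.2)]
  have e4 : ∑ j ∈ Ioc (u m) (u m + N), PI (j : ℤ) ≤ ∑ b ∈ Icc (-(N : ℤ)) N, PI (u m + b) := by
    have h5 : ∑ j ∈ Ioc (u m) (u m + N), PI (j : ℤ) = ∑ b ∈ Icc (1 : ℤ) N, PI (u m + b) := by
      apply sum_bij (fun (j : ℕ) _ => (j : ℤ) - u m)
      · intro j hj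
        rw [mem_Ioc] at hj
        rw [mem_Icc]
        constructor <;> omega
      · intro j _ j' _ h6
        omega
      · intro b hb
        rw [mem_Icc] at hb
        refine ⟨((u m : ℤ) + b).toNat, ?_, ?_⟩
        · rw [mem_Ioc]
          constructor <;> omega
        · rw [Int.toNat_of_nonneg (by omega)]
          ring
      · intro j _
        congr 1
        ring
    rw [h5]
    apply sum_le_sum_of_subset_of_nonneg
    · exact Icc_subset_Icc (by omega) le_rfl
    · intro b _ _
      exact PI_nonneg _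
  refine le_trans ?_ e4
  rw [← e3]
  push_cast at e2 ⊢
  rw [abs_le] at e1 e2
  linarith [e1.1, e1.2, e2.1, e2.2]

end Pool.Agent.V7H49.SH
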