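import Pool.Agent.V7H49.SH.D

/-!
# Many pairs of additive shifts: the lower bound (helper49)
-/

set_option autoImplicit false

namespace Pool.Agent.V7H49.SH

open Finset
open Pool.Agent.H373R2.T7

lemma mean (u v : ℕ → ℕ) (hu : Slow u) (hv : Slow v) : ∃ N0 : ℕ, ∀ N : ℕ, N0 ≤ N → ∀ W : Finset ℕ, W ⊆ Icc 1 N →
    (W.card : ℝ) * (N : ℝ) ^ 2 / 4 ≤ ∑ s ∈ Icc (-(N : ℤ)) N ×ˢ Icc (-(N : ℤ)) N, SP u v W s.1 s.2 := by
  obtain ⟨n1, h1⟩ := window u hu
  obtain ⟨n2, h2⟩ := window v hv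
  refine ⟨max n1 n2, fun N hN W hW => ?_⟩
  have a1 := h1 N ((le_max_left _ _).trans hN)
  have a2 := h2 N ((le_max_right _ _).trans hN)
  have e : ∑ s ∈ Icc (-(N : ℤ)) N ×ˢ Icc (-(N : ℤ)) N, SP u v W s.1 s.2 =
      ∑ m ∈ W, (∑ b ∈ Icc (-(N : ℤ)) N, PI (u m + b)) * (∑ d ∈ Icc (-(N : ℤ)) N, PI (v m + d)) := by
    unfold SP
    rw [sum_comm]
    apply sum_congr rfl
    intro m _
    rw [sum_product, sum_mul_sum]
  rw [e]
  have h3 : ∀ m ∈ W, (N : ℝ) ^ 2 / 4 ≤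
      (∑ b ∈ Icc (-(N : ℤ)) N, PI (u m + b)) * (∑ d ∈ Icc (-(N : ℤ)) N, PI (v m + d)) := by
    intro m hm
    have b1 := a1 m (hW hm)
    have b2 := a2 m (hW hm)
    have h4 : (N : ℝ) ^ 2 / 4 = (N / 2) * (N / 2) := by ring
    rw [h4]
    exact mul_le_mul b1 b2 (by positivity) (le_trans (by positivity) b1)
  refine le_trans (le_of_eq ?_) (sum_le_sum h3)
  rw [sum_const, nsmul_eq_mul]
  ring

open Classical in
/-- the number of indices in `W` at which both shifted sequences are prime -/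
noncomputable def both (u v : ℕ → ℕ) (W : Finset ℕ) (b d : ℤ) : ℕ :=
  (W.filter fun m => ((u m : ℤ) + b).toNat.Prime ∧ ((v m : ℤ) + d).toNat.Prime).card

lemma SP_le (u v : ℕ → ℕ) (hu : Slow u) (hv : Slow v) : ∃ N0 : ℕ, ∀ N : ℕ, N0 ≤ N → ∀ W : Finset ℕ, W ⊆ Icc 1 N →
    ∀ b ∈ Icc (-(N : ℤ)) N, ∀ d ∈ Icc (-(N : ℤ)) N, SP u v W b d ≤ both u v W b d * (2 * Real.log N) ^ 2 := by
  classical
  obtain ⟨_, s1, hs1⟩ := size u hu
  obtain ⟨_, s2, hs2⟩ := size v hv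
  refine ⟨max s1 s2, fun N hN W hW b hb d hd => ?_⟩
  obtain ⟨H1, hH11, _, _, hlogH1, hum1⟩ := hs1 N ((le_max_left _ _).trans hN)
  obtain ⟨H2, hH21, _, _, hlogH2, hum2⟩ := hs2 N ((le_max_right _ _).trans hN)
  rw [mem_Icc] at hb hd
  have hL0 : 0 ≤ Real.log N := Real.log_natCast_nonneg N
  unfold SP both
  have h1 : ∑ m ∈ W, PI (u m + b) * PI (v m + d) =
      ∑ m ∈ W.filter (fun m => ((u m : ℤ) + b).toNat.Prime ∧ ((v m : ℤ) + d).toNat.Prime),
        PI (u m + b) * PI (v m + d) := by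
    rw [sum_filter_of_ne]
    intro m _ hne
    constructor
    · by_contra hp
      apply hne
      unfold PI
      rw [if_neg (fun h => hp h.2), zero_mul]
    · by_contra hp
      apply hne
      unfold PI
      rw [if_neg (c := 1 ≤ (v m : ℤ) + d ∧ _) (fun h => hp h.2), mul_zero]
  rw [h1]
  have h2 : ∀ m ∈ W.filter (fun m => ((u m : ℤ) + b).toNat.Prime ∧ ((v m : ℤ) + d).toNat.Prime),
      PI (u m + b) * PI (v m + d) ≤ (2 * Real.log N) ^ 2 := by
    intro m hm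
    rw [mem_filter] at hm
    have c1 : PI (v m + d) ≤ 2 * Real.log N := by
      refine (PI_le_LI _).trans ((LI_le (H := H2) ?_ hH21).trans hlogH2)
      have := hum2 m (hW hm.1)
      omega
    have c2 : PI (u m + b) ≤ 2 * Real.log N := by
      refine (PI_le_LI _).trans ((LI_le (H := H1) ?_ hH11).trans hlogH1)
      have := hum1 m (hW hm.1)
      omega
    rw [pow_two]
    exact mul_le_mul c2 c1 (PI_nonneg _) (by positivity)
  refine (sum_le_sum h2).trans (le_of_eq ?_)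
  rw [sum_const, nsmul_eq_mul]

lemma card_box (N : ℕ) (hN : 1 ≤ N) : ((Icc (-(N : ℤ)) N ×ˢ Icc (-(N : ℤ)) N).card : ℝ) ≤ 9 * (N : ℝ) ^ 2 := by
  have h1 : (1 : ℝ) ≤ N := by exact_mod_cast hN
  rw [card_product, Int.card_Icc]
  have : ((N : ℤ) + 1 - -(N : ℤ)).toNat = 2 * N + 1 := by omega
  rw [this]
  push_cast
  nlinarith

/-- many pairs of shifts are good for one large set of indices -/
theorem manyShifts (u v : ℕ → ℕ) (hu : Slow u) (hv : Slow v) (c : ℝ) (hc : 0 < c) (k : ℕ) :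
    ∃ A : ℝ, 0 < A ∧ ∃ N0 : ℕ, ∀ N : ℕ, N0 ≤ N → ∀ W : Finset ℕ, W ⊆ Icc 1 N →
      c * N / Real.log N ^ k ≤ (W.card : ℝ) →
      (N : ℝ) ^ 2 / (A * Real.log (Real.log N) ^ 2) ≤
        (((Icc (-(N : ℤ)) N ×ˢ Icc (-(N : ℤ)) N).filter fun s => (W.card : ℝ) / 72 ≤ SP u v W s.1 s.2).card : ℝ) := by
  obtain ⟨B, hB⟩ := three u v hu hv (k + 2)
  obtain ⟨N1, hN1⟩ := hB (B + 2)
  obtain ⟨C1, hC1, hV⟩ := Vinv
  obtain ⟨n1, hmean⟩ := mean u v hu hv
  obtain ⟨m3, h3⟩ := ev_L' (max 16 (16 / c))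
  set A0 : ℝ := C1 * (B + 2) with hA0
  have hA0p : 0 < A0 := by positivity
  refine ⟨16 * A0 ^ 2, by positivity, max (max N1 n1) (max m3 3), fun N hN W hW hWc => ?_⟩
  have a1 : N1 ≤ N := le_trans (le_trans (le_max_left _ _) (le_max_left _ _)) hN
  have a2 : n1 ≤ N := le_trans (le_trans (le_max_right _ _) (le_max_left _ _)) hN
  have hLL := h3 N (le_trans (le_trans (le_max_left _ _) (le_max_right _ _)) hN)
  have hN3 : 3 ≤ N := le_trans (le_trans (le_max_right _ _) (le_max_right _ _)) hN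
  have hNr : (3 : ℝ) ≤ N := by exact_mod_cast hN3
  have hN0 : (0 : ℝ) < N := by linarith
  set L := Real.log N with hLd
  have hL16 : 16 ≤ L := (le_max_left _ _).trans hLL
  have hLc : 16 / c ≤ L := (le_max_right _ _).trans hLL
  have hL0 : 0 < L := by linarith
  have hL1 : 1 ≤ L := by linarith
  have hl1 : 1 ≤ Real.log L := by
    rw [← Real.log_exp 1]
    apply Real.log_le_log (Real.exp_pos _)
    have := Real.exp_one_lt_d9
    linarith
  set z : ℕ := ⌈L ^ (B + 1)⌉₊ with hz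
  have hz1 : L ^ (B + 1) ≤ z := Nat.le_ceil _
  have hz2 : (z : ℝ) ≤ L ^ (B + 2) := by
    have h4 := (Nat.ceil_lt_add_one (by positivity : (0 : ℝ) ≤ L ^ (B + 1))).le
    have h5 : (1 : ℝ) ≤ L ^ (B + 1) := one_le_pow₀ hL1
    rw [← hz] at h4
    rw [pow_succ L (B + 1)]
    nlinarith
  have hz3 : 3 ≤ z := by
    have h4 : L ≤ L ^ (B + 1) := by
      calc L = L ^ 1 := (pow_one L).symm
        _ ≤ L ^ (B + 1) := pow_le_pow_right₀ hL1 (by omega)
    have : (3 : ℝ) ≤ z := by linarith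
    exact_mod_cast this
  have hzB : L ^ B ≤ z := (pow_le_pow_right₀ hL1 (by omega)).trans hz1
  have key := hN1 N a1 z hzB hz2 W hW
  have hz3r : (3 : ℝ) ≤ z := by exact_mod_cast hz3
  have hVz : (Vz z)⁻¹ ≤ A0 * Real.log L := by
    have h4 := hV z hz3
    have h5 : Real.log z ≤ (B + 2) * Real.log L := by
      have h6 := Real.log_le_log (by linarith) hz2
      rw [Real.log_pow] at h6
      exact_mod_cast h6
    calc (Vz z)⁻¹ ≤ C1 * Real.log z := h4
      _ ≤ C1 * ((B + 2) * Real.log L) := mul_le_mul_of_nonneg_left h5 hC1.le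
      _ = A0 * Real.log L := by rw [hA0]; ring
  have hlz : ∀ t, LZ z t ≤ A0 * Real.log L := by
    intro t
    unfold LZ lamz
    split_ifs
    · exact hVz
    · positivity
    · positivity
  have hMo : ∀ s : ℤ × ℤ, Mo z u v W s.1 s.2 ≤ W.card * (A0 * Real.log L) ^ 2 := by
    intro s
    unfold Mo
    have h4 : ∀ m ∈ W, LZ z (u m + s.1) * LZ z (v m + s.2) ≤ (A0 * Real.log L) ^ 2 := by
      intro m _
      rw [pow_two]
      exact mul_le_mul (hlz _) (hlz _) (LZ_nonneg _ _) (by positivity)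
    refine (sum_le_sum h4).trans (le_of_eq ?_)
    rw [sum_const, nsmul_eq_mul]
  set T := Icc (-(N : ℤ)) N ×ˢ Icc (-(N : ℤ)) N with hT
  set G := T.filter fun s => (W.card : ℝ) / 72 ≤ SP u v W s.1 s.2 with hG
  have hWpos : 0 < (W.card : ℝ) := lt_of_lt_of_le (by positivity) hWc
  have hm := hmean N a2 W hW
  rw [← hT] at hm
  have hkey : ∑ s ∈ T, |SP u v W s.1 s.2 - Mo z u v W s.1 s.2| ≤ (N : ℝ) ^ 3 / L ^ (k + 2) := by
    rw [hT, sum_product]
    exact key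
  have hcard := card_box N (by omega)
  rw [← hT] at hcard
  have hsum : ∑ s ∈ T, SP u v W s.1 s.2 ≤ (G.card : ℝ) * (W.card * (A0 * Real.log L) ^ 2) + (N : ℝ) ^ 3 / L ^ (k + 2) +
      9 * (N : ℝ) ^ 2 * (W.card / 72) := by
    have h4 : ∑ s ∈ T, SP u v W s.1 s.2 = ∑ s ∈ G, SP u v W s.1 s.2 +
        ∑ s ∈ T.filter (fun s => ¬ (W.card : ℝ) / 72 ≤ SP u v W s.1 s.2), SP u v W s.1 s.2 :=
      (sum_filter_add_sum_filter_not _ _ _).symm
    rw [h4]
    have h5 : ∑ s ∈ T.filter (fun s => ¬ (W.card : ℝ) / 72 ≤ SP u v W s.1 s.2), SP u v W s.1 s.2 ≤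
        9 * (N : ℝ) ^ 2 * (W.card / 72) := by
      have h6 : ∀ s ∈ T.filter (fun s => ¬ (W.card : ℝ) / 72 ≤ SP u v W s.1 s.2), SP u v W s.1 s.2 ≤ (W.card : ℝ) / 72 := by
        intro s hs
        rw [mem_filter] at hs
        exact (not_le.1 hs.2).le
      refine (sum_le_sum h6).trans ?_
      rw [sum_const, nsmul_eq_mul]
      apply mul_le_mul_of_nonneg_right _ (by positivity)
      refine le_trans ?_ hcard
      exact_mod_cast card_le_card (filter_subset _ _)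
    have h7 : ∑ s ∈ G, SP u v W s.1 s.2 ≤ (G.card : ℝ) * (W.card * (A0 * Real.log L) ^ 2) + (N : ℝ) ^ 3 / L ^ (k + 2) := by
      have h8 : ∀ s ∈ G, SP u v W s.1 s.2 ≤ W.card * (A0 * Real.log L) ^ 2 + |SP u v W s.1 s.2 - Mo z u v W s.1 s.2| := by
        intro s _
        have := hMo s
        have := le_abs_self (SP u v W s.1 s.2 - Mo z u v W s.1 s.2)
        linarith
      refine (sum_le_sum h8).trans ?_
      rw [sum_add_distrib, sum_const, nsmul_eq_mul]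
      have h9 : ∑ s ∈ G, |SP u v W s.1 s.2 - Mo z u v W s.1 s.2| ≤ (N : ℝ) ^ 3 / L ^ (k + 2) :=
        (sum_le_sum_of_subset_of_nonneg (filter_subset _ _) (fun _ _ _ => abs_nonneg _)).trans hkey
      linarith
    linarith
  have herr : (N : ℝ) ^ 3 / L ^ (k + 2) ≤ (N : ℝ) ^ 2 * W.card / 16 := by
    have h4 : (N : ℝ) ^ 3 / L ^ (k + 2) = (N : ℝ) ^ 2 * ((1 / (c * L ^ 2)) * (c * N / L ^ k)) := by
      rw [pow_add]
      field_simp
    have h5 : 1 / (c * L ^ 2) ≤ 1 / 16 := by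
      apply one_div_le_one_div_of_le (by norm_num)
      rw [div_le_iff₀ hc] at hLc
      nlinarith
    have h7 : (N : ℝ) ^ 2 * W.card / 16 = (N : ℝ) ^ 2 * (W.card / 16) := by ring
    rw [h4, h7]
    apply mul_le_mul_of_nonneg_left _ (by positivity)
    calc (1 / (c * L ^ 2)) * (c * N / L ^ k) ≤ (1 / 16) * W.card :=
          mul_le_mul h5 hWc (by positivity) (by norm_num)
      _ = W.card / 16 := by ring
  have hfin : (W.card : ℝ) * (N : ℝ) ^ 2 / 16 ≤ (G.card : ℝ) * (W.card * (A0 * Real.log L) ^ 2) := by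
    have h4 : 9 * (N : ℝ) ^ 2 * (W.card / 72) = (W.card : ℝ) * (N : ℝ) ^ 2 / 8 := by ring
    have h5 : (N : ℝ) ^ 2 * W.card / 16 = (W.card : ℝ) * (N : ℝ) ^ 2 / 16 := by ring
    rw [h4] at hsum
    rw [h5] at herr
    linarith
  rw [div_le_iff₀ (by positivity)]
  have h6 : (W.card : ℝ) * ((N : ℝ) ^ 2) ≤ (W.card : ℝ) * ((G.card : ℝ) * (16 * A0 ^ 2 * Real.log L ^ 2)) := by
    have h7 : (G.card : ℝ) * (W.card * (A0 * Real.log L) ^ 2) * 16 =
        (W.card : ℝ) * ((G.card : ℝ) * (16 * A0 ^ 2 * Real.log L ^ 2)) := by ring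
    rw [← h7]
    linarith
  exact le_of_mul_le_mul_left h6 hWpos

end Pool.Agent.V7H49.SH
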