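import Pool.Agent.V7H49.SH.E

/-!
# Many pairs of additive shifts: all `n` (helper49)
-/

set_option autoImplicit false

namespace Pool.Agent.V7H49.SH

open Finset
open Pool.Agent.H373R2.T7

/-- few indices are small -/
lemma small_card (N : ℕ) (t : ℝ) (ht : 0 ≤ t) : (((Icc 1 N).filter fun n : ℕ => (n : ℝ) < t).card : ℝ) ≤ t := by
  have h1 : ((Icc 1 N).filter fun n : ℕ => (n : ℝ) < t) ⊆ Icc 1 ⌊t⌋₊ := by
    intro n hn
    rw [mem_filter, mem_Icc] at hn
    rw [mem_Icc]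
    exact ⟨hn.1.1, Nat.le_floor hn.2.le⟩
  have h2 := card_le_card h1
  rw [Nat.card_Icc, Nat.add_sub_cancel] at h2
  exact (Nat.cast_le.2 h2).trans (Nat.floor_le ht)

set_option maxHeartbeats 1000000 in
open Classical in
/-- **Many pairs of shifts.** -/
theorem five (u v : ℕ → ℕ) (hu : Slow u) (hv : Slow v) (c : ℝ) (hc : 0 < c) (k : ℕ) :
    ∃ c' : ℝ, 0 < c' ∧ ∃ N0 : ℕ, ∀ N : ℕ, N0 ≤ N → ∀ W : ℕ → Finset ℕ, (∀ n, W n ⊆ Icc 1 n) →
      c * N ≤ (((Icc 1 N).filter fun n : ℕ => (n : ℝ) / Real.log n ^ k ≤ ((W n).card : ℝ)).card : ℝ) →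
      c' * (N : ℝ) ^ 2 / Real.log (Real.log N) ^ 2 ≤
        (((Icc (-(N : ℤ)) N ×ˢ Icc (-(N : ℤ)) N).filter fun s =>
          c' * (N : ℝ) / Real.log (Real.log N) ^ 2 ≤
            (((Icc 1 N).filter fun n : ℕ => (n : ℝ) / Real.log n ^ (k + 3) ≤ (both u v (W n) s.1 s.2 : ℝ)).card : ℝ)).card : ℝ) := by
  obtain ⟨A, hA, n1, h1⟩ := manyShifts u v hu hv (c / 2) (by positivity) k
  obtain ⟨n2, h2⟩ := SP_le u v hu hv
  obtain ⟨n3, h3⟩ := ev_L' (max 16 (max (576 * 2 ^ (k + 3) / c) (2 * |Real.log (c / 2)|)))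
  obtain ⟨n4, hn4⟩ := exists_nat_ge (6 / c)
  refine ⟨c / (36 * A), by positivity, max (max n1 n2) (max (max n3 n4) 3), fun N hN W hW hWc => ?_⟩
  have a1 : n1 ≤ N := le_trans (le_trans (le_max_left _ _) (le_max_left _ _)) hN
  have a2 : n2 ≤ N := le_trans (le_trans (le_max_right _ _) (le_max_left _ _)) hN
  have hLL := h3 N (le_trans (le_trans (le_trans (le_max_left _ _) (le_max_left _ _)) (le_max_right _ _)) hN)
  have a4 : n4 ≤ N := le_trans (le_trans (le_trans (le_max_right _ _) (le_max_left _ _)) (le_max_right _ _)) hN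
  have hN3 : 3 ≤ N := le_trans (le_trans (le_max_right _ _) (le_max_right _ _)) hN
  have hNr : (3 : ℝ) ≤ N := by exact_mod_cast hN3
  have hN0 : (0 : ℝ) < N := by linarith
  have hNc : 6 / c ≤ N := hn4.trans (by exact_mod_cast a4)
  rw [div_le_iff₀ hc] at hNc
  set L := Real.log N with hLd
  have hL16 : 16 ≤ L := (le_max_left _ _).trans hLL
  have hLc : 576 * 2 ^ (k + 3) / c ≤ L := ((le_max_left _ _).trans (le_max_right _ _)).trans hLL
  have hLa : 2 * |Real.log (c / 2)| ≤ L := ((le_max_right _ _).trans (le_max_right _ _)).trans hLL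
  have hL0 : 0 < L := by linarith
  have hl1 : 1 ≤ Real.log L := by
    rw [← Real.log_exp 1]
    apply Real.log_le_log (Real.exp_pos _)
    have := Real.exp_one_lt_d9
    linarith
  set ℓ := Real.log L with hℓ
  have hℓ0 : 0 < ℓ := by linarith
  set T := Icc (-(N : ℤ)) N ×ˢ Icc (-(N : ℤ)) N with hT
  set P : ℕ → ℤ × ℤ → Prop := fun n s => (n : ℝ) / Real.log n ^ (k + 3) ≤ (both u v (W n) s.1 s.2 : ℝ) with hP
  -- the large `n` with many indices
  set 𝒢 := (Icc 1 N).filter fun n : ℕ => (n : ℝ) / Real.log n ^ k ≤ ((W n).card : ℝ) ∧ c / 2 * N ≤ n with h𝒢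
  have hcardG : c / 2 * N ≤ (𝒢.card : ℝ) := by
    have h4 : ((Icc 1 N).filter fun n : ℕ => (n : ℝ) / Real.log n ^ k ≤ ((W n).card : ℝ)) ⊆
        𝒢 ∪ ((Icc 1 N).filter fun n : ℕ => (n : ℝ) < c / 2 * N) := by
      intro n hn
      rw [mem_filter] at hn
      rw [mem_union, h𝒢, mem_filter, mem_filter]
      rcases le_or_gt (c / 2 * N) (n : ℝ) with h | h
      · exact Or.inl ⟨hn.1, hn.2, h⟩
      · exact Or.inr ⟨hn.1, h⟩
    have h5 := (card_le_card h4).trans (card_union_le _ _)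
    have h6 := small_card N (c / 2 * N) (by positivity)
    have h7 : (((Icc 1 N).filter fun n : ℕ => (n : ℝ) / Real.log n ^ k ≤ ((W n).card : ℝ)).card : ℝ) ≤
        (𝒢.card : ℝ) + (((Icc 1 N).filter fun n : ℕ => (n : ℝ) < c / 2 * N).card : ℝ) := by exact_mod_cast h5
    linarith
  have hgood : ∀ n ∈ 𝒢, (N : ℝ) ^ 2 / (A * ℓ ^ 2) ≤ ((T.filter fun s => P n s).card : ℝ) := by
    intro n hn
    rw [h𝒢, mem_filter, mem_Icc] at hn
    obtain ⟨⟨hn1, hnN⟩, hnW, hnc⟩ := hn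
    have hWn : W n ⊆ Icc 1 N := (hW n).trans (Icc_subset_Icc le_rfl hnN)
    have hn3 : (3 : ℝ) ≤ n := by linarith
    have hn0 : (0 : ℝ) < n := by linarith
    have hlogn1 : Real.log n ≤ L := Real.log_le_log hn0 (by exact_mod_cast hnN)
    have hlogn0 : 0 < Real.log n := Real.log_pos (by linarith)
    have hlogn2 : L / 2 ≤ Real.log n := by
      have h4 : Real.log (c / 2 * N) ≤ Real.log n := Real.log_le_log (by positivity) hnc
      rw [Real.log_mul (by positivity) hN0.ne'] at h4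
      have := neg_abs_le (Real.log (c / 2))
      linarith
    have hWc' : c / 2 * N / L ^ k ≤ ((W n).card : ℝ) := by
      refine le_trans ?_ hnW
      apply div_le_div₀ hn0.le hnc (by positivity)
      exact pow_le_pow_left₀ hlogn0.le hlogn1 _
    have h4 := h1 N a1 (W n) hWn hWc'
    refine h4.trans ?_
    rw [Nat.cast_le]
    apply card_le_card
    intro s hs
    rw [mem_filter] at hs ⊢
    refine ⟨hs.1, ?_⟩
    have hs1 := mem_product.1 hs.1
    have h5 := h2 N a2 (W n) hWn s.1 hs1.1 s.2 hs1.2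
    have h6 : (c / 2 * N / L ^ k) / 72 ≤ both u v (W n) s.1 s.2 * (2 * L) ^ 2 :=
      ((div_le_div_of_nonneg_right hWc' (by norm_num)).trans hs.2).trans h5
    have h7 : (n : ℝ) / Real.log n ^ (k + 3) ≤ N / (L / 2) ^ (k + 3) := by
      apply div_le_div₀ hN0.le (by exact_mod_cast hnN) (by positivity)
      exact pow_le_pow_left₀ (by positivity) hlogn2 _
    refine h7.trans ?_
    have h8 : (c / 2 * N / L ^ k) / 72 / (2 * L) ^ 2 ≤ both u v (W n) s.1 s.2 := by
      rw [div_le_iff₀ (by positivity)]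
      exact h6
    refine le_trans ?_ h8
    have h9 : N / (L / 2) ^ (k + 3) = (2 ^ (k + 3) * 576 / (c * L)) * ((c / 2 * N / L ^ k) / 72 / (2 * L) ^ 2) := by
      rw [div_pow, pow_add L k 3]
      field_simp
      ring
    rw [h9]
    have h10 : 2 ^ (k + 3) * 576 / (c * L) ≤ 1 := by
      rw [div_le_one (by positivity)]
      rw [div_le_iff₀ hc] at hLc
      linarith
    calc (2 ^ (k + 3) * 576 / (c * L)) * ((c / 2 * N / L ^ k) / 72 / (2 * L) ^ 2) ≤
        1 * ((c / 2 * N / L ^ k) / 72 / (2 * L) ^ 2) := mul_le_mul_of_nonneg_right h10 (by positivity)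
      _ = _ := one_mul _
  -- double counting
  set c' := c / (36 * A) with hc'
  have hc'0 : 0 < c' := by positivity
  set D := T.filter fun s => c' * (N : ℝ) / ℓ ^ 2 ≤ (((Icc 1 N).filter fun n : ℕ => P n s).card : ℝ) with hD
  have hdc : ∑ n ∈ Icc 1 N, ((T.filter fun s => P n s).card : ℝ) = ∑ s ∈ T, (((Icc 1 N).filter fun n : ℕ => P n s).card : ℝ) := by
    have := sum_card_bipartiteAbove_eq_sum_card_bipartiteBelow (s := Icc 1 N) (t := T) P
    unfold bipartiteAbove bipartiteBelow at this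
    exact_mod_cast this
  have hlow : (c / 2 * N) * ((N : ℝ) ^ 2 / (A * ℓ ^ 2)) ≤ ∑ s ∈ T, (((Icc 1 N).filter fun n : ℕ => P n s).card : ℝ) := by
    rw [← hdc]
    calc (c / 2 * N) * ((N : ℝ) ^ 2 / (A * ℓ ^ 2)) ≤ (𝒢.card : ℝ) * ((N : ℝ) ^ 2 / (A * ℓ ^ 2)) :=
          mul_le_mul_of_nonneg_right hcardG (by positivity)
      _ = ∑ n ∈ 𝒢, (N : ℝ) ^ 2 / (A * ℓ ^ 2) := by rw [sum_const, nsmul_eq_mul]
      _ ≤ ∑ n ∈ 𝒢, ((T.filter fun s => P n s).card : ℝ) := sum_le_sum hgood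
      _ ≤ _ := sum_le_sum_of_subset_of_nonneg (filter_subset _ _) (fun _ _ _ => Nat.cast_nonneg _)
  have hupp : ∑ s ∈ T, (((Icc 1 N).filter fun n : ℕ => P n s).card : ℝ) ≤ (D.card : ℝ) * N + 9 * (N : ℝ) ^ 2 * (c' * N / ℓ ^ 2) := by
    have h4 : ∑ s ∈ T, (((Icc 1 N).filter fun n : ℕ => P n s).card : ℝ) =
        ∑ s ∈ D, (((Icc 1 N).filter fun n : ℕ => P n s).card : ℝ) +
        ∑ s ∈ T.filter (fun s => ¬ c' * (N : ℝ) / ℓ ^ 2 ≤ (((Icc 1 N).filter fun n : ℕ => P n s).card : ℝ)),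
          (((Icc 1 N).filter fun n : ℕ => P n s).card : ℝ) := (sum_filter_add_sum_filter_not _ _ _).symm
    rw [h4]
    apply add_le_add
    · have h5 : ∀ s ∈ D, (((Icc 1 N).filter fun n : ℕ => P n s).card : ℝ) ≤ N := by
        intro s _
        have := card_le_card (filter_subset (fun n : ℕ => P n s) (Icc 1 N))
        rw [Nat.card_Icc, Nat.add_sub_cancel] at this
        exact_mod_cast this
      refine (sum_le_sum h5).trans (le_of_eq ?_)
      rw [sum_const, nsmul_eq_mul]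
    · have h6 : ∀ s ∈ T.filter (fun s => ¬ c' * (N : ℝ) / ℓ ^ 2 ≤ (((Icc 1 N).filter fun n : ℕ => P n s).card : ℝ)),
          (((Icc 1 N).filter fun n : ℕ => P n s).card : ℝ) ≤ c' * N / ℓ ^ 2 := by
        intro s hs
        rw [mem_filter] at hs
        exact (not_le.1 hs.2).le
      refine (sum_le_sum h6).trans ?_
      rw [sum_const, nsmul_eq_mul]
      apply mul_le_mul_of_nonneg_right _ (by positivity)
      refine le_trans ?_ (card_box N (by omega))
      exact_mod_cast card_le_card (filter_subset _ _)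
  have hfin : c' * (N : ℝ) ^ 2 / ℓ ^ 2 ≤ (D.card : ℝ) := by
    have h4 := hlow.trans hupp
    have h5 : (c / 2 * N) * ((N : ℝ) ^ 2 / (A * ℓ ^ 2)) = 18 * (c' * (N : ℝ) ^ 2 / ℓ ^ 2) * N := by
      rw [hc']
      field_simp
      norm_num
    have h6 : 9 * (N : ℝ) ^ 2 * (c' * N / ℓ ^ 2) = 9 * (c' * (N : ℝ) ^ 2 / ℓ ^ 2) * N := by ring
    rw [h5, h6] at h4
    have h7 : 9 * (c' * (N : ℝ) ^ 2 / ℓ ^ 2) * N ≤ (D.card : ℝ) * N := by linarith
    have h8 := le_of_mul_le_mul_right h7 hN0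
    have h9 : 0 ≤ c' * (N : ℝ) ^ 2 / ℓ ^ 2 := by positivity
    linarith
  exact hfin

end Pool.Agent.V7H49.SH
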